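import Pool.Agent.Helper34_CM.Sort

set_option autoImplicit false

noncomputable section

namespace Pool.Agent.Helper95_CM.H34

open Pool.Agent.Helper95_CM

variable {n : ℕ}

lemma dlt_congr {b : Bool} {s s' : Expo n} (h : srt s = srt s') (r : ℕ) :
    dlt b s r = dlt b s' r := by
  unfold dlt
  rw [h]

lemma add_mult {M : ℕ} {b : Bool} (hM : 1 ≤ M) {s : Expo n} (h : InCone M b s) {r : ℕ}
    (hr : r ≤ n) (m : ℕ) :
    InCone M b (s + m • vx M (ini (srt s) r)) ∧ srt (s + m • vx M (ini (srt s) r)) = srt s ∧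
      (∀ j, lmb M (s + m • vx M (ini (srt s) r)) j = lmb M s j + if j = r then m * M else 0) ∧
      (s + m • vx M (ini (srt s) r)) 0 = s 0 + m := by
  induction m with
  | zero =>
    rw [zero_smul, add_zero]
    refine ⟨h, rfl, fun j => ?_, rfl⟩
    simp
  | succ m ih =>
    obtain ⟨h1, h2, h3, h4⟩ := ih
    have he : s + (m + 1) • vx M (ini (srt s) r)
        = (s + m • vx M (ini (srt s) r)) + vx M (ini (srt (s + m • vx M (ini (srt s) r))) r) := by
      rw [h2, add_smul, one_smul, add_assoc]
    rw [he]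
    refine ⟨cone_add hM h1 _, ?_, fun j => ?_, ?_⟩
    · rw [srt_add hM, h2]
    · rw [lmb_add_vx hM h1 hr, h3]
      split_ifs
      · ring
      · rfl
    · rw [Finsupp.add_apply, h4, vx_zero]
      ring

lemma add_many {M : ℕ} {b : Bool} (hM : 1 ≤ M) {s : Expo n} (h : InCone M b s)
    (a : Fin (n + 1) → ℕ) (T : Finset (Fin (n + 1))) :
    InCone M b (s + ∑ r ∈ T, a r • vx M (ini (srt s) r)) ∧
      srt (s + ∑ r ∈ T, a r • vx M (ini (srt s) r)) = srt s ∧
      (∀ j : Fin (n + 1), lmb M (s + ∑ r ∈ T, a r • vx M (ini (srt s) r)) j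
        = lmb M s j + if j ∈ T then a j * M else 0) ∧
      (s + ∑ r ∈ T, a r • vx M (ini (srt s) r)) 0 = s 0 + ∑ r ∈ T, a r := by
  classical
  induction T using Finset.induction_on with
  | empty =>
    simp only [Finset.sum_empty, add_zero]
    refine ⟨h, trivial, fun j => ?_, trivial⟩
    simp
  | insert q T hq ih =>
    obtain ⟨h1, h2, h3, h4⟩ := ih
    obtain ⟨k1, k2, k3, k4⟩ := add_mult hM h1 (r := (q : ℕ)) (by omega) (a q)
    have he : s + ∑ r ∈ insert q T, a r • vx M (ini (srt s) r)
        = (s + ∑ r ∈ T, a r • vx M (ini (srt s) r)) + a q •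
          vx M (ini (srt (s + ∑ r ∈ T, a r • vx M (ini (srt s) r))) (q : ℕ)) := by
      rw [h2, Finset.sum_insert hq, add_assoc, add_comm (∑ r ∈ T, _)]
    rw [he]
    refine ⟨k1, k2.trans h2, fun j => ?_, ?_⟩
    · rw [k3, h3]
      by_cases hj : j = q
      · subst hj
        rw [if_pos rfl, if_neg hq, if_pos (Finset.mem_insert_self _ _)]
        ring
      · have h5 : ¬ ((j : ℕ) = q) := fun hc => hj (Fin.ext hc)
        rw [if_neg h5, add_zero]
        congr 1
        by_cases hjT : j ∈ T
        · rw [if_pos hjT, if_pos (Finset.mem_insert_of_mem hjT)]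
        · rw [if_neg hjT, if_neg]
          rw [Finset.mem_insert]
          push Not
          exact ⟨hj, hjT⟩
    · rw [k4, h4, Finset.sum_insert hq]
      ring

/-- the map of CNT -/
def gmap (M : ℕ) (x : Expo n × (Fin (n + 1) → ℕ)) : Expo n :=
  x.1 + ∑ r : Fin (n + 1), x.2 r • vx M (ini (srt x.1) r)

theorem cnt : CntStmt := by
  intro n M b hn hM
  refine ⟨gmap M, ?_, ?_⟩
  · intro s a hs
    obtain ⟨h1, h2, h3, h4⟩ := add_many hM hs.1 a Finset.univ
    exact ⟨h1, h4⟩
  · intro s a s' a' hs hs' he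
    obtain ⟨h1, h2, h3, h4⟩ := add_many hM hs.1 a Finset.univ
    obtain ⟨k1, k2, k3, k4⟩ := add_many hM hs'.1 a' Finset.univ
    unfold gmap at he
    simp only at he
    have hsrt : srt s = srt s' := by
      rw [← h2, ← k2]
      exact congrArg srt he
    have hl : ∀ j : Fin (n + 1), lmb M s j + a j * M = lmb M s' j + a' j * M := by
      intro j
      have e1 := h3 j
      have e2 := k3 j
      rw [if_pos (Finset.mem_univ _)] at e1 e2
      rw [← e1, ← e2]
      exact congrArg (fun x => lmb M x j) he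
    have ha : a = a' := by
      funext j
      have hj : (j : ℕ) ≤ n := by omega
      have b1 := dlt_le hn hs.1 hj
      have b2 := hs.2 j hj
      have b3 := dlt_le hn hs'.1 hj
      have b4 := hs'.2 j hj
      have b5 := dlt_congr (b := b) hsrt j
      have e := hl j
      rcases lt_trichotomy (a j) (a' j) with hlt | hlt | hlt
      · exfalso
        have : (a j + 1) * M ≤ a' j * M := Nat.mul_le_mul_right M hlt
        rw [Nat.add_mul] at this
        omega
      · exact hlt
      · exfalso
        have : (a' j + 1) * M ≤ a j * M := Nat.mul_le_mul_right M hlt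
        rw [Nat.add_mul] at this
        omega
    refine ⟨?_, ha⟩
    rw [← ha, ← hsrt] at he
    exact add_right_cancel he

end Pool.Agent.Helper95_CM.H34
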