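import Pool.Agent.Helper95_CM.Base
import Pool.Agent.Helper34_CM.Cnt

set_option autoImplicit false

noncomputable section

namespace Pool.Agent.Helper95_CM.H34

open Pool.Agent.Helper95_CM MvPolynomial

variable {n M : ℕ} {R : Type} [CommRing R]

/-! ### levels -/

lemma hasLev_prod {ι : Type} (t : Finset ι) (x : ι → PP n R) (k : ι → ℕ)
    (h : ∀ i ∈ t, HasLev (k i) (x i)) : HasLev (∑ i ∈ t, k i) (∏ i ∈ t, x i) := by
  classical
  induction t using Finset.induction_on with
  | empty =>
    rw [Finset.sum_empty, Finset.prod_empty]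
    exact hasLev_one
  | insert a t ha ih =>
    rw [Finset.sum_insert ha, Finset.prod_insert ha]
    exact (h a (Finset.mem_insert_self a t)).mul
      (ih fun i hi => h i (Finset.mem_insert_of_mem hi))

lemma hasLev_Jac (c : Grid n M → R) : HasLev (n + 1) (Jac c) := by
  unfold Jac
  rw [Matrix.det_apply]
  apply Supp.sum
  intro σ _
  have h1 : HasLev (n + 1) (∏ i, Hes c (σ i) i) := by
    have := hasLev_prod (R := R) Finset.univ (fun i => Hes c (σ i) i) (fun _ => 1)
      (fun i _ => by
        show HasLev 1 (th (σ i) (th i (Fp c)))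
        exact ((hasLev_Fp c).th i).th (σ i))
    simpa using this
  rcases Int.units_eq_one_or (Equiv.Perm.sign σ) with h | h
  · rw [h, one_smul]
    exact h1
  · rw [h, Units.neg_smul, one_smul]
    exact Supp.neg h1

lemma hasLev_bbo (b : Bool) (c : Grid n M → R) (s : Expo n) :
    HasLev (s 0) (bbo b (topE n M) c s) := by
  unfold bbo
  split_ifs with h
  · rw [h.2]
    exact hasLev_Jac c
  · exact Supp.monomial (P := fun s' => s' 0 = s 0) rfl 1

/-! ### the elements `Y^a b_s` -/

/-- products of basis elements with monomials in the `Y_i` -/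
def yb (b : Bool) (c : Grid n M → R) (s : Expo n) (a : Fin (n + 1) →₀ ℕ) : PP n R :=
  (a.prod fun i k => Yp c i ^ k) * bbo b (topE n M) c s

lemma yb_zero (b : Bool) (c : Grid n M → R) (s : Expo n) :
    yb b c s 0 = bbo b (topE n M) c s := by
  unfold yb
  rw [Finsupp.prod_zero_index, one_mul]

lemma yb_add (b : Bool) (c : Grid n M → R) (s : Expo n) (a : Fin (n + 1) →₀ ℕ)
    (i : Fin (n + 1)) :
    yb b c s (a + Finsupp.single i 1) = Yp c i * yb b c s a := by
  unfold yb
  have h1 : ((Finsupp.single i 1 : Fin (n + 1) →₀ ℕ).prod fun i k => Yp c i ^ k) = Yp c i := by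
    rw [Finsupp.prod_single_index (h := fun i k => Yp c i ^ k) (pow_zero _), pow_one]
  rw [Finsupp.prod_add_index' (fun _ => pow_zero _) (fun _ _ _ => pow_add _ _ _), h1]
  ring

lemma hasLev_yb (b : Bool) (c : Grid n M → R) (s : Expo n) (a : Fin (n + 1) →₀ ℕ) :
    HasLev (s 0 + a.degree) (yb b c s a) := by
  unfold yb
  rw [add_comm]
  refine HasLev.mul ?_ (hasLev_bbo b c s)
  unfold Finsupp.prod
  rw [Finsupp.degree_apply]
  apply hasLev_prod
  intro i _
  have := (hasLev_Yp c i).pow (a i)
  rwa [mul_one] at this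

lemma aeval_mul_bbo (b : Bool) (c : Grid n M → R) (s : Expo n)
    (P : MvPolynomial (Fin (n + 1)) R) :
    aeval (Yp c) P * bbo b (topE n M) c s
      = ∑ a ∈ P.support, C (coeff a P) * yb b c s a := by
  conv_lhs => rw [P.as_sum, map_sum, Finset.sum_mul]
  apply Finset.sum_congr rfl
  intro a _
  rw [aeval_monomial]
  unfold yb
  rw [algebraMap_eq, mul_assoc]

/-! ### the span of level `l` -/

/-- span of the `Y^a b_s` of level `l` -/
def WW (b : Bool) (B : Finset (Expo n)) (c : Grid n M → R) (l : ℕ) : Submodule R (PP n R) :=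
  Submodule.span R {y | ∃ s ∈ B, ∃ a : Fin (n + 1) →₀ ℕ, s 0 + a.degree = l ∧ y = yb b c s a}

lemma mulY_mem {b : Bool} {B : Finset (Expo n)} {c : Grid n M → R} {l : ℕ} {x : PP n R}
    (hx : x ∈ WW b B c l) (i : Fin (n + 1)) : Yp c i * x ∈ WW b B c (l + 1) := by
  unfold WW at hx
  induction hx using Submodule.span_induction with
  | mem y hy =>
    obtain ⟨s, hs, a, ha, rfl⟩ := hy
    apply Submodule.subset_span
    refine ⟨s, hs, a + Finsupp.single i 1, ?_, (yb_add b c s a i).symm⟩
    rw [map_add, Finsupp.degree_single]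
    omega
  | zero => rw [mul_zero]; exact Submodule.zero_mem _
  | add y z _ _ hy hz => rw [mul_add]; exact Submodule.add_mem _ hy hz
  | smul r y _ hy => rw [mul_smul_comm]; exact Submodule.smul_mem _ r hy

lemma mem_of_supp {W : Submodule R (PP n R)} {Q : Expo n → Prop} {x : PP n R}
    (hx : Supp Q x) (h : ∀ s, Q s → mon s ∈ W) : x ∈ W := by
  rw [x.as_sum]
  apply Submodule.sum_mem
  intro s hs
  have h1 : (monomial s) (coeff s x) = coeff s x • (mon s : PP n R) := by
    unfold mon
    rw [smul_monomial, smul_eq_mul, mul_one]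
  rw [h1]
  exact Submodule.smul_mem _ _ (h s (hx s (mem_support_iff.mp hs)))

lemma map_bbo {S : Type} [CommRing S] (b : Bool) (g : R →+* S) (c : Grid n M → R) (s : Expo n) :
    map g (bbo b (topE n M) c s) = bbo b (topE n M) (fun β => g (c β)) s := by
  unfold bbo
  split_ifs
  · exact map_Jac g c
  · exact map_mon g s

/-- the relation over `R` -/
lemma rel_map {b : Bool} {B : Finset (Expo n)} {Dt : MvPolynomial (Grid n M) ℤ} {s : Expo n}
    (c : Grid n M → R) {a : Expo n → MvPolynomial (Grid n M) ℤ}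
    {σ : Fin (n + 1) → PP n (MvPolynomial (Grid n M) ℤ)}
    (h : C Dt * mon s = (∑ s' ∈ B with s' 0 = s 0, C (a s') * bbo b (topE n M) (gen n M) s')
        + ∑ i, Yp (gen n M) i * σ i) :
    C (aeval c Dt) * mon s = (∑ s' ∈ B with s' 0 = s 0, C (aeval c (a s')) *
      bbo b (topE n M) c s') + ∑ i, Yp c i * map (aeval c).toRingHom (σ i) := by
  have h2 := congrArg (map (aeval c).toRingHom) h
  rw [map_mul, map_C, map_mon, map_add, map_sum, map_sum] at h2
  have hc : (fun β => (aeval c).toRingHom (gen n M β)) = c := by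
    funext β
    show aeval c (X β) = c β
    rw [aeval_X]
  rw [show (C ((aeval c).toRingHom Dt) : PP n R) = C (aeval c Dt) from rfl] at h2
  rw [h2]
  congr 1
  · apply Finset.sum_congr rfl
    intro s' _
    rw [map_mul, map_C, map_bbo, hc]
    rfl
  · apply Finset.sum_congr rfl
    intro i _
    rw [map_mul, map_Yp, hc]

lemma mon_mem {b : Bool} {B : Finset (Expo n)} {Dt : MvPolynomial (Grid n M) ℤ}
    (hred : ∀ s : Expo n, InCone M b s →
    ∃ (a : Expo n → MvPolynomial (Grid n M) ℤ)
      (σ : Fin (n + 1) → PP n (MvPolynomial (Grid n M) ℤ)),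
      (∀ i, IsCone M b (σ i)) ∧
      (∀ i, Supp (fun s' => s' 0 + 1 = s 0) (σ i)) ∧
      C Dt * mon s = (∑ s' ∈ B with s' 0 = s 0, C (a s') * bbo b (topE n M) (gen n M) s')
        + ∑ i, Yp (gen n M) i * σ i)
    (c : Grid n M → R) (hDt : IsUnit (aeval c Dt)) (l : ℕ) :
    ∀ s : Expo n, InCone M b s → s 0 = l → mon s ∈ WW b B c l := by
  induction l with
  | zero =>
    intro s hs hl
    obtain ⟨a, σ, h1, h2, h3⟩ := hred s hs
    have h4 := rel_map c h3
    obtain ⟨u, hu⟩ := hDt
    have h5 : (mon s : PP n R) = (↑u⁻¹ : R) • (C (aeval c Dt) * mon s) := by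
      rw [← hu, ← smul_eq_C_mul, smul_smul, Units.inv_mul, one_smul]
    rw [h5]
    apply Submodule.smul_mem
    rw [h4]
    apply Submodule.add_mem
    · apply Submodule.sum_mem
      intro s' hs'
      rw [Finset.mem_filter] at hs'
      rw [← smul_eq_C_mul]
      apply Submodule.smul_mem
      apply Submodule.subset_span
      refine ⟨s', hs'.1, 0, ?_, (yb_zero b c s').symm⟩
      rw [show (0 : Fin (n + 1) →₀ ℕ).degree = 0 from map_zero _, hs'.2, hl]
    · apply Submodule.sum_mem
      intro i _
      have h6 : map (aeval c).toRingHom (σ i) = 0 := by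
        have : σ i = 0 := by
          refine MvPolynomial.ext _ _ fun s' => ?_
          rw [coeff_zero]
          by_contra hne
          have := h2 i s' hne
          omega
        rw [this, map_zero]
      rw [h6, mul_zero]
      exact Submodule.zero_mem _
  | succ l ih =>
    intro s hs hl
    obtain ⟨a, σ, h1, h2, h3⟩ := hred s hs
    have h4 := rel_map c h3
    obtain ⟨u, hu⟩ := hDt
    have h5 : (mon s : PP n R) = (↑u⁻¹ : R) • (C (aeval c Dt) * mon s) := by
      rw [← hu, ← smul_eq_C_mul, smul_smul, Units.inv_mul, one_smul]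
    rw [h5]
    apply Submodule.smul_mem
    rw [h4]
    apply Submodule.add_mem
    · apply Submodule.sum_mem
      intro s' hs'
      rw [Finset.mem_filter] at hs'
      rw [← smul_eq_C_mul]
      apply Submodule.smul_mem
      apply Submodule.subset_span
      refine ⟨s', hs'.1, 0, ?_, (yb_zero b c s').symm⟩
      rw [show (0 : Fin (n + 1) →₀ ℕ).degree = 0 from map_zero _, hs'.2, hl, add_zero]
    · apply Submodule.sum_mem
      intro i _
      apply mulY_mem
      apply mem_of_supp (Supp.and (Supp.map (h1 i) _) (Supp.map (h2 i) _))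
      intro s'' hs''
      exact ih s'' hs''.1 (by have := hs''.2; omega)

/-! ### finiteness of the levels of the cone -/

/-- exponents of level `l` in the cone -/
def El (n M : ℕ) (b : Bool) (l : ℕ) : Type := {s : Expo n // InCone M b s ∧ s 0 = l}

instance (b : Bool) (l : ℕ) : Finite (El n M b l) := by
  have hfin : Set.Finite (Set.Iic
      (Finsupp.equivFunOnFinite.symm (fun _ : Fin (n + 1) => (M + 1) * (l + 1)) : Expo n)) :=
    Set.finite_Iic _
  have h2 : Set.Finite {s : Expo n | InCone M b s ∧ s 0 = l} := by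
    refine hfin.subset ?_
    rintro s ⟨hs, hl⟩
    rw [Set.mem_Iic]
    intro i
    refine Fin.cases ?_ (fun k => ?_) i
    · show s 0 ≤ (M + 1) * (l + 1)
      calc s 0 ≤ l + 1 := by omega
        _ ≤ (M + 1) * (l + 1) := Nat.le_mul_of_pos_left _ (by omega)
    · show s k.succ ≤ (M + 1) * (l + 1)
      calc s k.succ ≤ M * s 0 := cone_le hs k
        _ ≤ M * (l + 1) := Nat.mul_le_mul_left _ (by omega)
        _ ≤ (M + 1) * (l + 1) := Nat.mul_le_mul_right _ (by omega)
  exact h2.to_subtype

/-- pairs of level `l` -/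
def Pl (B : Finset (Expo n)) (l : ℕ) : Type :=
  {x : Expo n × (Fin (n + 1) →₀ ℕ) // x.1 ∈ B ∧ x.1 0 + x.2.degree = l}

/-- the map of freeness -/
def fl (b : Bool) (B : Finset (Expo n)) (c : Grid n M → R) (l : ℕ) :
    (Pl B l →₀ R) →ₗ[R] (El n M b l → R) :=
  (LinearMap.pi fun e : El n M b l => lcoeff R e.1) ∘ₗ
    Finsupp.linearCombination R (fun x : Pl B l => yb b c x.1.1 x.1.2)

lemma fl_surj {b : Bool} {B : Finset (Expo n)} {Dt : MvPolynomial (Grid n M) ℤ}
    (hred : ∀ s : Expo n, InCone M b s →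
    ∃ (a : Expo n → MvPolynomial (Grid n M) ℤ)
      (σ : Fin (n + 1) → PP n (MvPolynomial (Grid n M) ℤ)),
      (∀ i, IsCone M b (σ i)) ∧
      (∀ i, Supp (fun s' => s' 0 + 1 = s 0) (σ i)) ∧
      C Dt * mon s = (∑ s' ∈ B with s' 0 = s 0, C (a s') * bbo b (topE n M) (gen n M) s')
        + ∑ i, Yp (gen n M) i * σ i)
    (c : Grid n M → R) (hDt : IsUnit (aeval c Dt)) (l : ℕ) :
    Function.Surjective (fl b B c l) := by
  classical
  have hfin : Fintype (El n M b l) := Fintype.ofFinite _
  rw [← LinearMap.range_eq_top, eq_top_iff]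
  intro y _
  have hy : y = ∑ e, y e • (Pi.single e (1 : R) : El n M b l → R) := by
    funext e'
    rw [Finset.sum_apply]
    simp [Pi.single_apply]
  rw [hy]
  apply Submodule.sum_mem
  intro e _
  apply Submodule.smul_mem
  have h1 := mon_mem hred c hDt l e.1 e.2.1 e.2.2
  have h2 : WW b B c l = LinearMap.range
      (Finsupp.linearCombination R (fun x : Pl B l => yb b c x.1.1 x.1.2)) := by
    rw [Finsupp.range_linearCombination]
    unfold WW
    congr 1
    ext y
    simp only [Set.mem_ofPred_eq, Set.mem_range]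
    constructor
    · rintro ⟨s, hs, a, ha, rfl⟩
      exact ⟨⟨(s, a), hs, ha⟩, rfl⟩
    · rintro ⟨x, rfl⟩
      exact ⟨x.1.1, x.2.1, x.1.2, x.2.2, rfl⟩
  rw [h2] at h1
  obtain ⟨z, hz⟩ := h1
  refine ⟨z, ?_⟩
  unfold fl
  rw [LinearMap.comp_apply, hz]
  funext e'
  rw [LinearMap.pi_apply]
  show coeff e'.1 (mon e.1) = _
  unfold mon
  rw [coeff_monomial, Pi.single_apply]
  by_cases h : e.1 = e'.1
  · have h' : e' = e := (Subtype.ext h).symm
    rw [if_pos h, if_pos h']
  · have h' : ¬ e' = e := fun hc => h (by rw [hc])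
    rw [if_neg h, if_neg h']

lemma fl_inj {b : Bool} {B : Finset (Expo n)} {Dt : MvPolynomial (Grid n M) ℤ}
    (hn : 1 ≤ n) (hM : 1 ≤ M) (hB : ∀ s, s ∈ B ↔ IsRed M b s)
    (hred : ∀ s : Expo n, InCone M b s →
    ∃ (a : Expo n → MvPolynomial (Grid n M) ℤ)
      (σ : Fin (n + 1) → PP n (MvPolynomial (Grid n M) ℤ)),
      (∀ i, IsCone M b (σ i)) ∧
      (∀ i, Supp (fun s' => s' 0 + 1 = s 0) (σ i)) ∧
      C Dt * mon s = (∑ s' ∈ B with s' 0 = s 0, C (a s') * bbo b (topE n M) (gen n M) s')
        + ∑ i, Yp (gen n M) i * σ i)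
    (c : Grid n M → R) (hDt : IsUnit (aeval c Dt)) (l : ℕ) :
    Function.Injective (fl b B c l) := by
  classical
  obtain ⟨g, hg1, hg2⟩ := cnt n M b hn hM
  let g' : Pl B l → El n M b l := fun x =>
    ⟨g (x.1.1, ⇑x.1.2), (hg1 _ _ ((hB _).mp x.2.1)).1, by
      rw [(hg1 _ _ ((hB _).mp x.2.1)).2, ← Finsupp.degree_eq_sum]
      exact x.2.2⟩
  have hg' : Function.Injective g' := by
    intro x y hxy
    have h1 := congrArg Subtype.val hxy
    have h2 := hg2 _ _ _ _ ((hB _).mp x.2.1) ((hB _).mp y.2.1) h1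
    apply Subtype.ext
    apply Prod.ext h2.1
    exact DFunLike.coe_injective h2.2
  have hi : Function.Injective ((Finsupp.lcoeFun (R := R) (α := El n M b l) (M := R)) ∘ₗ
      Finsupp.lmapDomain R R g') := by
    intro x y hxy
    apply Finsupp.mapDomain_injective hg'
    apply DFunLike.coe_injective
    exact hxy
  exact OrzechProperty.injective_of_surjective_of_injective _ _ hi (fl_surj hred c hDt l)

theorem inj : InjStmt := by
  classical
  intro n M b B Dt hn hM hB hred R _ c hDt P hsum s0 hs0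
  ext a0
  rw [coeff_zero]
  by_contra hne
  set l := s0 0 + a0.degree with hl
  have hinj := fl_inj hn hM hB hred c hDt l
  let z : Pl B l →₀ R := ∑ s ∈ B.attach, ∑ a ∈ (P s.1).support,
    if h : s.1 0 + a.degree = l then
      Finsupp.single (⟨(s.1, a), s.2, h⟩ : Pl B l) (coeff a (P s.1)) else 0
  have hz : fl b B c l z = 0 := by
    funext e
    unfold fl
    rw [LinearMap.comp_apply, LinearMap.pi_apply]
    show coeff e.1 (Finsupp.linearCombination R (fun x : Pl B l => yb b c x.1.1 x.1.2) z) = 0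
    have h1 := congrArg (coeff e.1) hsum
    rw [coeff_zero, coeff_sum] at h1
    rw [map_sum, coeff_sum, ← h1, ← Finset.sum_attach B]
    apply Finset.sum_congr rfl
    intro s _
    rw [map_sum, coeff_sum, aeval_mul_bbo, coeff_sum]
    apply Finset.sum_congr rfl
    intro a _
    split_ifs with h
    · rw [Finsupp.linearCombination_single, smul_eq_C_mul]
    · rw [map_zero, coeff_zero, coeff_C_mul]
      by_cases h2 : coeff e.1 (yb b c s.1 a) = 0
      · rw [h2, mul_zero]
      · exfalso
        apply h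
        rw [← hasLev_yb b c s.1 a e.1 h2, e.2.2]
  have hz0 : z = 0 := hinj (by rw [hz, map_zero])
  have h3 : z ⟨(s0, a0), hs0, rfl⟩ = coeff a0 (P s0) := by
    show (∑ s ∈ B.attach, ∑ a ∈ (P s.1).support,
      if h : s.1 0 + a.degree = l then
      Finsupp.single (⟨(s.1, a), s.2, h⟩ : Pl B l) (coeff a (P s.1)) else 0) _ = _
    rw [Finsupp.finsetSum_apply, Finset.sum_eq_single ⟨s0, hs0⟩]
    · rw [Finsupp.finsetSum_apply, Finset.sum_eq_single a0]
      · rw [dif_pos hl.symm, Finsupp.single_eq_same]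
      · intro a _ ha
        split_ifs with h
        · rw [Finsupp.single_apply, if_neg]
          intro hc
          apply ha
          exact congrArg (fun x : Pl B l => x.1.2) hc
        · rfl
      · intro ha
        rw [dif_pos hl.symm, Finsupp.single_eq_same]
        exact notMem_support_iff.mp ha
    · intro s _ hs
      rw [Finsupp.finsetSum_apply]
      apply Finset.sum_eq_zero
      intro a _
      split_ifs with h
      · rw [Finsupp.single_apply, if_neg]
        intro hc
        apply hs
        apply Subtype.ext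
        exact congrArg (fun x : Pl B l => x.1.1) hc
      · rfl
    · intro h
      exact absurd (Finset.mem_attach _ _) h
  rw [hz0] at h3
  exact hne h3.symm

end Pool.Agent.Helper95_CM.H34
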