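import Pool.Agent.Helper34_CM.Sort

set_option autoImplicit false

noncomputable section

namespace Pool.Agent.Helper95_CM.H34

open Pool.Agent.Helper95_CM

variable {n : ℕ}

lemma ini_of_closed (π : Equiv.Perm (Fin n)) (S : Finset (Fin n))
    (h : ∀ i j : Fin n, i < j → π j ∈ S → π i ∈ S) : ∃ r ≤ n, S = ini π r := by
  classical
  by_cases hall : ∀ i : Fin n, π i ∈ S
  · refine ⟨n, le_rfl, ?_⟩
    ext k
    obtain ⟨i, rfl⟩ := π.surjective k
    rw [mem_ini_apply]
    exact ⟨fun _ => i.2, fun _ => hall i⟩
  · push Not at hall
    -- the least index outside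
    let A : Finset (Fin n) := Finset.univ.filter fun i => π i ∉ S
    have hA : A.Nonempty := by
      obtain ⟨i, hi⟩ := hall
      exact ⟨i, by simp [A, hi]⟩
    refine ⟨(A.min' hA : Fin n), (A.min' hA).2.le, ?_⟩
    have hm : π (A.min' hA) ∉ S := by
      have := A.min'_mem hA
      simpa [A] using this
    ext k
    obtain ⟨i, rfl⟩ := π.surjective k
    rw [mem_ini_apply]
    constructor
    · intro hi
      by_contra hc
      have hle : A.min' hA ≤ i := by
        rw [Fin.le_def]
        omega
      rcases hle.lt_or_eq with hlt | he
      · exact hm (h _ _ hlt hi)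
      · rw [he] at hm
        exact hm hi
    · intro hi
      by_contra hc
      have : i ∈ A := by simp [A, hc]
      have h2 := A.min'_le i this
      rw [Fin.le_def] at h2
      omega

theorem lex : LexStmt := by
  classical
  intro n M s S hn hM hc
  by_cases heq : srt s = srt (s + vx M S)
  · left
    apply ini_of_closed
    intro i j hij hj
    by_contra hi
    have h1 := srt_anti (s + vx M S) hij.le
    rw [← heq, Finsupp.add_apply, Finsupp.add_apply, vx_succ, vx_succ, if_pos hj, if_neg hi] at h1
    have h2 := hc _ _ hi hj
    omega
  · right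
    have hne : ∃ r : Fin n, srt s r ≠ srt (s + vx M S) r := by
      by_contra hcon
      push Not at hcon
      exact heq (Equiv.ext hcon)
    let A : Finset (Fin n) := Finset.univ.filter fun r => srt s r ≠ srt (s + vx M S) r
    have hA : A.Nonempty := by
      obtain ⟨i, hi⟩ := hne
      exact ⟨i, by simp [A, hi]⟩
    have hm : srt s (A.min' hA) ≠ srt (s + vx M S) (A.min' hA) := by
      have := A.min'_mem hA
      simpa [A] using this
    have hlow : ∀ r' < A.min' hA, srt s r' = srt (s + vx M S) r' := by
      intro r' hr'
      by_contra hcon
      have : r' ∈ A := by simp [A, hcon]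
      exact absurd (A.min'_le r' this) (not_le.mpr hr')
    refine ⟨A.min' hA, hlow, ?_⟩
    set r := A.min' hA with hr
    -- b = σ r = π j with j > r
    obtain ⟨j, hj⟩ := (srt s).surjective (srt (s + vx M S) r)
    obtain ⟨j', hj'⟩ := (srt (s + vx M S)).surjective (srt s r)
    have hjr : r < j := by
      by_contra hcon
      rw [not_lt] at hcon
      rcases hcon.lt_or_eq with h1 | h1
      · have h2 := hlow j h1
        rw [hj] at h2
        have := (srt (s + vx M S)).injective h2
        exact absurd h1 (by rw [← this]; exact lt_irrefl _)
      · rw [h1] at hj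
        exact hm hj
    have hjr' : r < j' := by
      by_contra hcon
      rw [not_lt] at hcon
      rcases hcon.lt_or_eq with h1 | h1
      · have h2 := hlow j' h1
        rw [hj'] at h2
        have := (srt s).injective h2
        exact absurd h1 (by rw [this]; exact lt_irrefl _)
      · rw [h1] at hj'
        exact hm hj'.symm
    have h1 := srt_anti s hjr.le
    rw [hj] at h1
    have h2 := srt_anti (s + vx M S) hjr'.le
    rw [hj', Finsupp.add_apply, Finsupp.add_apply, vx_succ, vx_succ] at h2
    have h3 : s (srt s r).succ = s (srt (s + vx M S) r).succ := by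
      by_contra hcon
      have h4 : s (srt (s + vx M S) r).succ < s (srt s r).succ := by omega
      by_cases hb : srt (s + vx M S) r ∈ S
      · by_cases ha : srt s r ∈ S
        · rw [if_pos ha, if_pos hb] at h2
          omega
        · have := hc _ _ ha hb
          omega
      · rw [if_neg hb] at h2
        split_ifs at h2 <;> omega
    rw [← hj] at h3
    have h5 := srt_tie s hjr h3
    rw [hj] at h5
    exact h5

end Pool.Agent.Helper95_CM.H34
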