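import Pool.Agent.Helper95_CM.Base
import Pool.Agent.Helper95_CM.StG

set_option autoImplicit false

noncomputable section

namespace Pool.Agent.Helper95_CM.H34

open Pool.Agent.Helper95_CM MvPolynomial

variable {n M : ℕ} {R : Type} [CommRing R]

lemma supp_X_succ (k : Fin n) : Supp (fun s : Expo n => s 0 = 0 ∧ (∀ j, j ≠ k → s j.succ = 0) ∧
    s k.succ = 1) (X k.succ : PP n R) := by
  unfold X
  apply Supp.monomial
  refine ⟨?_, ?_, ?_⟩
  · rw [Finsupp.single_apply, if_neg]
    exact Fin.succ_ne_zero k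
  · intro j hj
    rw [Finsupp.single_apply, if_neg]
    intro h
    exact hj (Fin.succ_injective _ h).symm
  · rw [Finsupp.single_eq_same]

lemma supp_one_add (k : Fin n) (m : ℕ) :
    Supp (fun s : Expo n => s 0 = 0 ∧ (∀ j, j ≠ k → s j.succ = 0) ∧ s k.succ ≤ m)
      ((1 + X k.succ : PP n R) ^ m) := by
  induction m with
  | zero =>
    classical
    intro s hs
    rw [pow_zero, coeff_one] at hs
    split_ifs at hs with h
    · rw [← h]
      exact ⟨rfl, fun _ _ => rfl, le_rfl⟩
    · exact absurd rfl hs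
  | succ m ih =>
    rw [pow_succ]
    refine Supp.mul ?_ ih (Supp.add (P := fun s : Expo n => s 0 = 0 ∧ (∀ j, j ≠ k → s j.succ = 0) ∧
      s k.succ ≤ 1) ?_ ((supp_X_succ k).mono fun s hs => ⟨hs.1, hs.2.1, hs.2.2.le⟩))
    · intro s s' h h'
      refine ⟨?_, fun j hj => ?_, ?_⟩
      · rw [Finsupp.add_apply, h.1, h'.1]
      · rw [Finsupp.add_apply, h.2.1 j hj, h'.2.1 j hj]
      · rw [Finsupp.add_apply]
        have := h.2.2
        have := h'.2.2
        omega
    · classical
      intro s hs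
      rw [coeff_one] at hs
      split_ifs at hs with h
      · rw [← h]
        exact ⟨rfl, fun _ _ => rfl, Nat.zero_le _⟩
      · exact absurd rfl hs

lemma supp_prod (hM : 2 ≤ M) (t : Finset (Fin n)) :
    Supp (fun s : Expo n => s 0 = 0 ∧ ∀ k, (k ∈ t → 1 ≤ s k.succ ∧ s k.succ ≤ M - 1) ∧
      (k ∉ t → s k.succ = 0))
      (∏ k ∈ t, ((X k.succ : PP n R) * (1 + X k.succ) ^ (M - 2))) := by
  classical
  induction t using Finset.induction_on with
  | empty =>
    rw [Finset.prod_empty]
    intro s hs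
    rw [coeff_one] at hs
    split_ifs at hs with h
    · rw [← h]
      exact ⟨rfl, fun k => ⟨fun hk => absurd hk (Finset.notMem_empty k), fun _ => rfl⟩⟩
    · exact absurd rfl hs
  | insert a t ha ih =>
    rw [Finset.prod_insert ha]
    have h1 : Supp (fun s : Expo n => s 0 = 0 ∧ (∀ j, j ≠ a → s j.succ = 0) ∧
        1 ≤ s a.succ ∧ s a.succ ≤ M - 1) ((X a.succ : PP n R) * (1 + X a.succ) ^ (M - 2)) := by
      refine Supp.mul ?_ (supp_X_succ a) (supp_one_add a (M - 2))
      intro s s' h h'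
      have e1 := h.2.2
      have e2 := h'.2.2
      refine ⟨?_, fun j hj => ?_, ?_, ?_⟩
      · rw [Finsupp.add_apply, h.1, h'.1]
      · rw [Finsupp.add_apply, h.2.1 j hj, h'.2.1 j hj]
      · rw [Finsupp.add_apply]; omega
      · rw [Finsupp.add_apply]; omega
    refine Supp.mul ?_ h1 ih
    intro s s' h h'
    refine ⟨?_, fun k => ⟨fun hk => ?_, fun hk => ?_⟩⟩
    · rw [Finsupp.add_apply, h.1, h'.1]
    · rw [Finsupp.add_apply]
      by_cases hka : k = a
      · subst hka
        rw [(h'.2 k).2 ha, add_zero]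
        exact h.2.2
      · rw [h.2.1 k hka, zero_add]
        exact (h'.2 k).1 ((Finset.mem_insert.mp hk).resolve_left hka)
    · rw [Finset.mem_insert] at hk
      push Not at hk
      rw [Finsupp.add_apply, h.2.1 k hk.1, (h'.2 k).2 hk.2]

theorem omg : OmgStmt := by
  intro n M R _ hM
  have h1 : Supp (fun s : Expo n => s 0 = 1 ∧ ∀ k : Fin n, 1 ≤ s k.succ ∧ s k.succ ≤ M - 1)
      (Pool.Agent.Helper95_CM.omg n M R) := by
    unfold Pool.Agent.Helper95_CM.omg
    have h0 : Supp (fun s : Expo n => s 0 = 1 ∧ ∀ k : Fin n, s k.succ = 0) (X 0 : PP n R) := by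
      unfold X
      apply Supp.monomial
      refine ⟨?_, fun k => ?_⟩
      · rw [Finsupp.single_eq_same]
      · rw [Finsupp.single_apply, if_neg]
        exact (Fin.succ_ne_zero k).symm
    refine Supp.mul ?_ h0 (supp_prod hM Finset.univ)
    intro s s' h h'
    refine ⟨?_, fun k => ?_⟩
    · rw [Finsupp.add_apply, h.1, h'.1]
    · rw [Finsupp.add_apply, h.2 k, zero_add]
      exact (h'.2 k).1 (Finset.mem_univ k)
  constructor
  · refine h1.mono ?_
    intro s hs k
    have := hs.2 k
    rw [hs.1]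
    omega
  · exact h1.mono fun s hs => hs.1

end Pool.Agent.Helper95_CM.H34
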