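import Pool.Agent.Helper34_CM.Sort

set_option autoImplicit false

noncomputable section

namespace Pool.Agent.Helper95_CM.H34

open Pool.Agent.Helper95_CM

variable {n : ℕ}

lemma sum_lmb {M : ℕ} {b : Bool} {s : Expo n} (h : InCone M b s) (k : ℕ) :
    Vs M s k + ∑ r ∈ Finset.range k, lmb M s r = M * s 0 := by
  induction k with
  | zero => simp [Vs_zero]
  | succ k ih =>
    rw [Finset.sum_range_succ, ← ih, ← lmb_add h k]
    ring

lemma dlt_le_one (b : Bool) (s : Expo n) (r : ℕ) : dlt b s r ≤ 1 := by
  unfold dlt
  split_ifs <;> omega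

lemma topE_cone {M : ℕ} (hM : 1 ≤ M) : InCone M true (topE n M) := by
  intro k
  have h1 : (topE n M) k.succ = M * ((k : ℕ) + 1) := rfl
  have h2 : (topE n M) 0 = n + 1 := rfl
  rw [h1, h2]
  have hk := k.2
  constructor
  · positivity
  · exact Nat.mul_lt_mul_of_pos_left (by omega) (by omega)

lemma srt_topE {M : ℕ} (hM : 1 ≤ M) : srt (topE n M) = Fin.revPerm := by
  symm
  rw [srt_iff]
  have hval : ∀ i : Fin n, topE n M (Fin.revPerm i).succ = M * ((Fin.rev i : Fin n) + 1) := by
    intro i; rfl
  constructor
  · intro i j hij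
    rw [hval, hval]
    apply Nat.mul_le_mul_left
    have h2 : (i : ℕ) ≤ j := hij
    simp only [Fin.val_rev]
    omega
  · intro i j hij he
    exfalso
    rw [hval, hval] at he
    have h2 : (i : ℕ) < j := hij
    have := Nat.eq_of_mul_eq_mul_left (by omega : 0 < M) he
    simp only [Fin.val_rev] at this
    omega

lemma Vs_topE {M : ℕ} (hM : 1 ≤ M) {r : ℕ} (hr : r ≤ n + 1) : Vs M (topE n M) r = M * (n + 1 - r) := by
  rcases Nat.eq_zero_or_pos r with h0 | h0
  · subst h0
    rw [Vs_zero]
    rfl
  · obtain ⟨q, rfl⟩ : ∃ q, r = q + 1 := ⟨r - 1, by omega⟩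
    by_cases hq : q < n
    · rw [Vs_succ' _ _ hq, srt_topE hM]
      have : topE n M (Fin.revPerm (⟨q, hq⟩ : Fin n)).succ = M * ((Fin.rev (⟨q, hq⟩ : Fin n) : Fin n) + 1) := rfl
      rw [this]
      simp only [Fin.val_rev]
      congr 1
      omega
    · rw [Vs_last _ _ (by omega)]
      have : n + 1 - (q + 1) = 0 := by omega
      rw [this, Nat.mul_zero]

lemma dlt_topE {M : ℕ} (hM : 1 ≤ M) {r : ℕ} (hr : r ≤ n) : dlt true (topE n M) r = 1 := by
  unfold dlt
  by_cases h0 : r = 0 ∨ r = n
  · rw [if_pos h0, if_pos rfl]
  · rw [if_neg h0]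
    push Not at h0
    have hlt : r < n := by omega
    rw [dif_pos hlt, if_pos]
    rw [srt_topE hM]
    show Fin.rev _ < Fin.rev _
    rw [Fin.rev_lt_rev, Fin.mk_lt_mk]
    omega

lemma isRed_topE {M : ℕ} (hM : 1 ≤ M) : IsRed M true (topE n M) := by
  refine ⟨topE_cone hM, fun r hr => ?_⟩
  rw [dlt_topE hM hr]
  unfold lmb
  rw [Vs_topE hM (by omega), Vs_topE hM (by omega)]
  have h1 : n + 1 - r = (n + 1 - (r + 1)) + 1 := by omega
  rw [h1, Nat.mul_add]
  omega

lemma isRed_zero {M : ℕ} (hM : 1 ≤ M) : IsRed M false (0 : Expo n) := by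
  refine ⟨fun k => by simp, fun r _ => ?_⟩
  have : lmb M (0 : Expo n) r = 0 := by
    unfold lmb Vs
    simp
  omega

lemma red_lev {M : ℕ} {b : Bool} (hn : 1 ≤ n) (hM : 1 ≤ M) {s : Expo n} (hs : IsRed M b s) :
    s 0 ≤ n ∨ (b = true ∧ s = topE n M) := by
  have hsum := sum_lmb hs.1 (n + 1)
  rw [Vs_last M s le_rfl, zero_add] at hsum
  cases b with
  | false =>
    left
    have h1 : ∑ r ∈ Finset.range (n + 1), lmb M s r
        < ∑ r ∈ Finset.range (n + 1), M := by
      apply Finset.sum_lt_sum
      · intro r hr
        rw [Finset.mem_range] at hr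
        have h2 := hs.2 r (by omega)
        have h3 := dlt_le_one false s r
        omega
      · refine ⟨0, Finset.mem_range.mpr (by omega), ?_⟩
        have h2 := hs.2 0 (by omega)
        have h3 : dlt false s 0 = 0 := by
          unfold dlt
          rw [if_pos (Or.inl rfl)]
          rfl
        omega
    rw [hsum, Finset.sum_const, Finset.card_range, smul_eq_mul, Nat.mul_comm (n + 1)] at h1
    have := Nat.lt_of_mul_lt_mul_left h1
    omega
  | true =>
    by_cases hl : s 0 ≤ n
    · exact Or.inl hl
    · right
      refine ⟨rfl, ?_⟩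
      have hle : ∀ r ∈ Finset.range (n + 1), lmb M s r ≤ M := by
        intro r hr
        rw [Finset.mem_range] at hr
        have h2 := hs.2 r (by omega)
        have h3 := dlt_le_one true s r
        omega
      have h1 : ∑ r ∈ Finset.range (n + 1), lmb M s r
          ≤ ∑ r ∈ Finset.range (n + 1), M := Finset.sum_le_sum hle
      have h1' := h1
      rw [hsum, Finset.sum_const, Finset.card_range, smul_eq_mul, Nat.mul_comm (n + 1)] at h1'
      have h4 : s 0 ≤ n + 1 := Nat.le_of_mul_le_mul_left h1' (by omega)
      have h5 : s 0 = n + 1 := by omega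
      have h6 : ∑ r ∈ Finset.range (n + 1), lmb M s r = ∑ r ∈ Finset.range (n + 1), M := by
        rw [hsum, Finset.sum_const, Finset.card_range, smul_eq_mul, h5, Nat.mul_comm]
      have h7 : ∀ r ≤ n, lmb M s r = M := by
        intro r hr
        exact ((Finset.sum_eq_sum_iff_of_le hle).mp h6) r (Finset.mem_range.mpr (by omega))
      have hd : ∀ r ≤ n, dlt true s r = 1 := by
        intro r hr
        have h2 := hs.2 r hr
        have h3 := dlt_le_one true s r
        have h8 := h7 r hr
        omega
      -- the sort is the reversal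
      have hstep : ∀ r (h : r < n), ∀ h' : r - 1 < n, 1 ≤ r →
          srt s ⟨r, h⟩ < srt s ⟨r - 1, h'⟩ := by
        intro r h h' hr
        have h2 := hd r h.le
        unfold dlt at h2
        rw [if_neg (by omega), dif_pos h] at h2
        by_contra hc
        rw [if_neg hc] at h2
        omega
      have hsa : StrictAnti (srt s) := by
        obtain ⟨m, rfl⟩ : ∃ m, n = m + 1 := ⟨n - 1, by omega⟩
        rw [Fin.strictAnti_iff_succ_lt]
        intro i
        have := hstep (i + 1) (by omega) (by omega) (by omega)
        exact this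
      have hrev : srt s = Fin.revPerm := by
        have hmono : StrictMono (Fin.revPerm.symm ∘ srt s : Fin n → Fin n) := by
          intro i j hij
          show Fin.revPerm.symm (srt s i) < Fin.revPerm.symm (srt s j)
          rw [Fin.revPerm_symm]
          show Fin.rev _ < Fin.rev _
          rw [Fin.rev_lt_rev]
          exact hsa hij
        have hid : ∀ i, Fin.revPerm.symm (srt s i) = i := by
          have hb : Function.Bijective (Fin.revPerm.symm ∘ srt s : Fin n → Fin n) :=
            Fin.revPerm.symm.bijective.comp (srt s).bijective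
          let e : Fin n ≃o Fin n := hmono.orderIsoOfSurjective _ hb.surjective
          have : e = OrderIso.refl _ := Subsingleton.elim _ _
          intro i
          have h9 : e i = i := by rw [this]; rfl
          exact h9
        ext1 i
        have := congrArg Fin.revPerm (hid i)
        rwa [Equiv.apply_symm_apply] at this
      have hV : ∀ r ≤ n + 1, Vs M s r = M * (n + 1 - r) := by
        intro r
        induction r with
        | zero =>
          intro _
          rw [Vs_zero, h5]
          rfl
        | succ r ih =>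
          intro hr
          have h8 := lmb_add hs.1 r
          rw [ih (by omega), h7 r (by omega)] at h8
          have h9 : n + 1 - r = (n + 1 - (r + 1)) + 1 := by omega
          rw [h9, Nat.mul_add] at h8
          omega
      ext k
      refine Fin.cases ?_ (fun k => ?_) k
      · rw [h5]; rfl
      · have h8 := Vs_succ' M s (i := (Fin.rev k : Fin n)) (Fin.rev k).2
        have h9 : srt s ⟨(Fin.rev k : Fin n), (Fin.rev k).2⟩ = k := by
          rw [hrev]
          show Fin.rev (Fin.rev k) = k
          exact Fin.rev_rev k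
        rw [h9, hV _ (by have := (Fin.rev k).2; omega)] at h8
        rw [← h8]
        show _ = M * ((k : ℕ) + 1)
        congr 1
        rw [Fin.val_rev]
        have := k.2
        omega

theorem redfin : RedFinStmt := by
  intro n M b hn hM
  refine ⟨fun s hs => red_lev hn hM hs, fun hb => by subst hb; exact isRed_topE hM,
    fun hb => by subst hb; exact isRed_zero hM, ?_⟩
  have hfin : Set.Finite (Set.Iic
      (Finsupp.equivFunOnFinite.symm (fun _ : Fin (n + 1) => (M + 1) * (n + 1)) : Expo n)) :=
    Set.finite_Iic _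
  refine hfin.subset ?_
  intro s hs
  have hs' : IsRed M b s := hs
  have h0 : s 0 ≤ n + 1 := by
    rcases red_lev hn hM hs' with h | ⟨_, h⟩
    · omega
    · rw [h]
      exact le_refl _
  rw [Set.mem_Iic]
  intro i
  refine Fin.cases ?_ (fun k => ?_) i
  · show s 0 ≤ (M + 1) * (n + 1)
    calc s 0 ≤ n + 1 := h0
      _ ≤ (M + 1) * (n + 1) := Nat.le_mul_of_pos_left _ (by omega)
  · show s k.succ ≤ (M + 1) * (n + 1)
    calc s k.succ ≤ M * s 0 := cone_le hs'.1 k
      _ ≤ M * (n + 1) := Nat.mul_le_mul_left _ h0
      _ ≤ (M + 1) * (n + 1) := Nat.mul_le_mul_right _ (by omega)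

end Pool.Agent.Helper95_CM.H34
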