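import Pool.Agent.Helper34_CM.Inj
import Pool.Agent.Helper34_CM.Redfin
import Pool.Agent.Helper95_CM.StB

set_option autoImplicit false

noncomputable section

namespace Pool.Agent.Helper95_CM.H34

open Pool.Agent.Helper95_CM MvPolynomial

variable {n M : ℕ} {R : Type} [CommRing R]

lemma isCone_Jac (hJ : JConeStmt) (hn : 1 ≤ n) (hM : 1 ≤ M) (c : Grid n M → R) :
    IsCone M true (Jac c) := by
  have h := hJ n M R (fun i => Yp c i) hn hM (fun i => ⟨isCone_Yp c i, hasLev_Yp c i⟩)
  exact h.1

lemma isCone_bbo (hJ : JConeStmt) (hn : 1 ≤ n) (hM : 1 ≤ M) (b : Bool) (c : Grid n M → R)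
    {s : Expo n} (hs : InCone M b s) : IsCone M b (bbo b (topE n M) c s) := by
  unfold bbo
  split_ifs with h
  · rw [h.1]
    exact isCone_Jac hJ hn hM c
  · exact Supp.monomial hs 1

lemma isCone_prod {ι : Type} (t : Finset ι) (x : ι → PP n R)
    (h : ∀ i ∈ t, IsCone M false (x i)) : IsCone M false (∏ i ∈ t, x i) := by
  classical
  induction t using Finset.induction_on with
  | empty =>
    rw [Finset.prod_empty]
    exact isCone_one
  | insert a t ha ih =>
    rw [Finset.prod_insert ha]
    exact (h a (Finset.mem_insert_self a t)).mul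
      (ih fun i hi => h i (Finset.mem_insert_of_mem hi))

lemma isCone_yb (hJ : JConeStmt) (hn : 1 ≤ n) (hM : 1 ≤ M) (b : Bool) (c : Grid n M → R)
    {s : Expo n} (hs : InCone M b s) (a : Fin (n + 1) →₀ ℕ) : IsCone M b (yb b c s a) := by
  unfold yb
  refine IsCone.mul ?_ (isCone_bbo hJ hn hM b c hs)
  unfold Finsupp.prod
  exact isCone_prod _ _ fun i _ => (isCone_Yp c i).pow _

/-- the first variable occurring in a monomial -/
def fv (m : Fin (n + 1) →₀ ℕ) : Fin (n + 1) :=
  if h : ∃ i, m i ≠ 0 then h.choose else 0

lemma fv_spec {m : Fin (n + 1) →₀ ℕ} (h : 1 ≤ m.degree) : m (fv m) ≠ 0 := by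
  have h1 : ∃ i, m i ≠ 0 := by
    by_contra hc
    push Not at hc
    have : m = 0 := by
      ext i
      exact hc i
    rw [this, show (0 : Fin (n + 1) →₀ ℕ).degree = 0 from map_zero _] at h
    omega
  unfold fv
  rw [dif_pos h1]
  exact h1.choose_spec

lemma yb_fv (b : Bool) (c : Grid n M → R) (s : Expo n) {m : Fin (n + 1) →₀ ℕ}
    (h : 1 ≤ m.degree) :
    yb b c s m = Yp c (fv m) * yb b c s (m - Finsupp.single (fv m) 1) := by
  rw [← yb_add]
  congr 1
  symm
  apply tsub_add_cancel_of_le
  rw [Finsupp.single_le_iff]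
  have := fv_spec h
  omega

lemma degree_sub_fv {m : Fin (n + 1) →₀ ℕ} (h : 1 ≤ m.degree) :
    (m - Finsupp.single (fv m) 1).degree + 1 = m.degree := by
  have h1 : m - Finsupp.single (fv m) 1 + Finsupp.single (fv m) 1 = m := by
    apply tsub_add_cancel_of_le
    rw [Finsupp.single_le_iff]
    have := fv_spec h
    omega
  conv_rhs => rw [← h1]
  rw [map_add, Finsupp.degree_single]

/-- exponents can be reduced by a grid point -/
lemma exists_grid {b : Bool} (hM : 1 ≤ M) {s : Expo n} (hs : InCone M b s) (hl : 4 ≤ s 0) :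
    ∃ (β : Grid n M) (s1 : Expo n), InCone M b s1 ∧ s = gex β + s1 := by
  obtain ⟨l, hl0⟩ : ∃ l, s 0 = l + 1 := ⟨s 0 - 1, by omega⟩
  cases b with
  | false =>
    refine ⟨fun k => ⟨min (s k.succ) M, by have := min_le_right (s k.succ) M; omega⟩,
      mkE l (fun k => s k.succ - min (s k.succ) M), ?_, ?_⟩
    · intro k
      rw [mkE_succ, mkE_zero]
      have h1 := hs k
      rw [hl0, Nat.mul_add] at h1
      rcases le_total (s k.succ) M with h | h
      · rw [min_eq_left h]; omega
      · rw [min_eq_right h]; omega
    · ext i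
      refine Fin.cases ?_ (fun k => ?_) i
      · rw [Finsupp.add_apply, gex_zero, mkE_zero, hl0]; ring
      · rw [Finsupp.add_apply, gex_succ, mkE_succ]
        show _ = min (s k.succ) M + _
        have := min_le_left (s k.succ) M
        omega
  | true =>
    refine ⟨fun k => ⟨min (s k.succ - 1) M, by have := min_le_right (s k.succ - 1) M; omega⟩,
      mkE l (fun k => s k.succ - min (s k.succ - 1) M), ?_, ?_⟩
    · intro k
      rw [mkE_succ, mkE_zero]
      have h1 := hs k
      rw [hl0, Nat.mul_add] at h1
      have h3 : 3 ≤ M * l := by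
        calc 3 = 1 * 3 := rfl
          _ ≤ M * l := Nat.mul_le_mul hM (by omega)
      rcases le_total (s k.succ - 1) M with h | h
      · rw [min_eq_left h]; omega
      · rw [min_eq_right h]; omega
    · ext i
      refine Fin.cases ?_ (fun k => ?_) i
      · rw [Finsupp.add_apply, gex_zero, mkE_zero, hl0]; ring
      · rw [Finsupp.add_apply, gex_succ, mkE_succ]
        show _ = min (s k.succ - 1) M + _
        have := min_le_left (s k.succ - 1) M
        have := hs k
        omega

theorem red (hJ : JConeStmt) (hG : GenLStmt) : RedStmt := by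
  classical
  intro n M b B hn hM hB
  choose d hd0 hd using fun l => hG n M b l hn hM
  have hlev := (redfin n M b hn hM).1
  refine ⟨∏ l ∈ Finset.range (n + 3), d l, Finset.prod_ne_zero_iff.mpr fun l _ => hd0 l, ?_⟩
  -- the low levels
  have hlow : ∀ s : Expo n, InCone M b s → s 0 ≤ n + 2 →
      ∃ (a : Expo n → MvPolynomial (Grid n M) ℤ)
      (σ : Fin (n + 1) → PP n (MvPolynomial (Grid n M) ℤ)),
      (∀ i, IsCone M b (σ i)) ∧
      (∀ i, Supp (fun s' => s' 0 + 1 = s 0) (σ i)) ∧
      C (∏ l ∈ Finset.range (n + 3), d l) * mon s =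
        (∑ s' ∈ B with s' 0 = s 0, C (a s') * bbo b (topE n M) (gen n M) s')
        + ∑ i, Yp (gen n M) i * σ i := by
    intro s hs hl
    set l := s 0 with hl0
    obtain ⟨P, B', hB', hP, hrel⟩ := hd l s hs hl0.symm
    set e : MvPolynomial (Grid n M) ℤ := ∏ l' ∈ (Finset.range (n + 3)).erase l, d l' with he
    have hprod : ∏ l ∈ Finset.range (n + 3), d l = e * d l := by
      rw [he, mul_comm]
      exact (Finset.mul_prod_erase _ _ (Finset.mem_range.mpr (by omega))).symm
    have hdeg : ∀ s' ∈ B', ∀ m ∈ (P s').support, m.degree = l - s' 0 := by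
      intro s' hs' m hm
      have h1 := (hP s' hs').1 (mem_support_iff.mp hm)
      rwa [Finsupp.degree_eq_weight_one]
    refine ⟨fun s' => if s' ∈ B' ∧ s' 0 = l then e * coeff 0 (P s') else 0,
      fun i => ∑ s' ∈ B' with s' 0 < l, ∑ m ∈ (P s').support,
        if fv m = i then C (e * coeff m (P s')) *
          yb b (gen n M) s' (m - Finsupp.single i 1) else 0, ?_, ?_, ?_⟩
    · intro i
      apply Supp.sum
      intro s' hs'
      rw [Finset.mem_filter] at hs'
      apply Supp.sum
      intro m _
      split_ifs
      · exact Supp.C_mul _ (isCone_yb hJ hn hM b _ (hB' s' hs'.1).1 _)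
      · exact Supp.zero
    · intro i
      apply Supp.sum
      intro s' hs'
      rw [Finset.mem_filter] at hs'
      apply Supp.sum
      intro m hm
      split_ifs with hf
      · apply Supp.C_mul
        have h1 := hdeg s' hs'.1 m hm
        have h2 : 1 ≤ m.degree := by omega
        have h3 := degree_sub_fv h2
        rw [hf] at h3
        have h4 := hasLev_yb b (gen n M) s' (m - Finsupp.single i 1)
        intro t ht
        have h5 := h4 t ht
        omega
      · exact Supp.zero
    · rw [hprod, C_mul, mul_assoc, hrel]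
      -- split by level
      have hsplit : ∀ s' ∈ B', aeval (Yp (gen n M)) (P s') * bbo b (topE n M) (gen n M) s'
          = ∑ m ∈ (P s').support, C (coeff m (P s')) * yb b (gen n M) s' m :=
        fun s' _ => aeval_mul_bbo b (gen n M) s' (P s')
      rw [Finset.sum_congr rfl hsplit,
        ← Finset.sum_filter_add_sum_filter_not B' (fun s' => s' 0 < l), mul_add]
      refine Eq.trans (add_comm _ _) ?_
      congr 1
      · -- top level
        have h1 : (∑ s' ∈ B with s' 0 = l, C (if s' ∈ B' ∧ s' 0 = l then e * coeff 0 (P s') else 0)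
            * bbo b (topE n M) (gen n M) s')
            = ∑ s' ∈ B' with ¬ s' 0 < l, C (e * coeff 0 (P s')) *
              bbo b (topE n M) (gen n M) s' := by
          symm
          rw [← Finset.sum_subset (s₁ := B'.filter fun s' => ¬ s' 0 < l)
            (s₂ := B.filter fun s' => s' 0 = l)]
          · apply Finset.sum_congr rfl
            intro s' hs'
            rw [Finset.mem_filter] at hs'
            rw [if_pos ⟨hs'.1, by have := (hP s' hs'.1).2; omega⟩]
          · intro s' hs'
            rw [Finset.mem_filter] at hs' ⊢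
            exact ⟨(hB s').mpr (hB' s' hs'.1), by have := (hP s' hs'.1).2; omega⟩
          · intro s' hs' hn'
            rw [Finset.mem_filter] at hs'
            rw [Finset.mem_filter] at hn'
            rw [if_neg, C_0, zero_mul]
            rintro ⟨h2, h3⟩
            exact hn' ⟨h2, by omega⟩
        rw [h1, Finset.mul_sum]
        apply Finset.sum_congr rfl
        intro s' hs'
        rw [Finset.mem_filter] at hs'
        have h2 : ∀ m ∈ (P s').support, m = 0 := by
          intro m hm
          have h3 := hdeg s' hs'.1 m hm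
          have h4 : m.degree = 0 := by omega
          exact (Finsupp.degree_eq_zero_iff m).mp h4
        rw [Finset.sum_eq_single (0 : Fin (n + 1) →₀ ℕ)]
        · rw [yb_zero, C_mul, mul_assoc]
        · intro m hm h0
          exact absurd (h2 m hm) h0
        · intro h0
          rw [notMem_support_iff.mp h0, C_0, zero_mul]
      · -- lower levels
        rw [Finset.mul_sum]
        simp only [Finset.mul_sum]
        rw [Finset.sum_comm]
        apply Finset.sum_congr rfl
        intro s' hs'
        rw [Finset.mem_filter] at hs'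
        rw [Finset.sum_comm]
        apply Finset.sum_congr rfl
        intro m hm
        rw [Finset.sum_eq_single (fv m)]
        · rw [if_pos rfl, yb_fv b (gen n M) s' (by
            have := hdeg s' hs'.1 m hm
            omega), C_mul]
          ring
        · intro i _ hi
          rw [if_neg (Ne.symm hi), mul_zero]
        · intro h
          exact absurd (Finset.mem_univ _) h
  -- the high levels
  have hB0 : ∀ l, n + 2 ≤ l → B.filter (fun s' => s' 0 = l) = ∅ := by
    intro l hl
    rw [Finset.filter_eq_empty_iff]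
    intro s' hs' hc
    rcases hlev s' ((hB s').mp hs') with h | ⟨_, h⟩
    · omega
    · rw [h] at hc
      have : topE n M 0 = n + 1 := rfl
      omega
  intro s hs
  obtain ⟨l, hl⟩ : ∃ l, s 0 = l := ⟨_, rfl⟩
  induction l using Nat.strong_induction_on generalizing s with
  | _ l ih =>
    by_cases hle : s 0 ≤ n + 2
    · exact hlow s hs hle
    · have h4 : 4 ≤ s 0 := by omega
      obtain ⟨β, s1, hs1, heq⟩ := exists_grid hM hs h4
      have h0 : s 0 = 1 + s1 0 := by
        rw [heq, Finsupp.add_apply, gex_zero]
      obtain ⟨a, σ, h1, h2, h3⟩ := ih (s1 0) (by omega) s1 hs1 rfl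
      refine ⟨fun _ => 0, fun i => mon (gex β) * σ i, ?_, ?_, ?_⟩
      · intro i
        exact IsCone.mul (Supp.monomial (inCone_gex β) _) (h1 i)
      · intro i
        refine Supp.mul ?_ (Supp.monomial (P := fun s' => s' = gex β) rfl 1) (h2 i)
        intro t t' ht ht'
        rw [ht, Finsupp.add_apply, gex_zero]
        omega
      · rw [hB0 (s1 0) (by omega), Finset.sum_empty, zero_add] at h3
        rw [hB0 (s 0) (by omega), Finset.sum_empty, zero_add]
        have h5 : (mon s : PP n (MvPolynomial (Grid n M) ℤ)) = mon (gex β) * mon s1 := by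
          unfold mon
          rw [monomial_mul, one_mul, ← heq]
        rw [h5, mul_left_comm, h3, Finset.mul_sum]
        apply Finset.sum_congr rfl
        intro i _
        ring

/-- Existence of the Cohen-Macaulay data. -/
theorem cadx (hR : RedStmt) : CadStmt := by
  classical
  intro n M b hn hM
  obtain ⟨r1, r2, r3, r4⟩ := redfin n M b hn hM
  have hB : ∀ s, s ∈ r4.toFinset ↔ IsRed M b s := by
    intro s
    rw [Set.Finite.mem_toFinset]
    rfl
  obtain ⟨Dt, hDt, hred⟩ := hR n M b r4.toFinset hn hM hB
  refine ⟨{
    Bas := r4.toFinset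
    top := topE n M
    Dt := Dt
    Dt_ne := hDt
    cone := fun s hs => ((hB s).mp hs).1
    lev := fun s hs => r1 s ((hB s).mp hs)
    top_mem := fun hb => (hB _).mpr (r2 hb)
    top_lev := rfl
    zero_mem := fun hb => (hB _).mpr (r3 hb)
    red := hred
    inj := ?_ }⟩
  exact inj n M b r4.toFinset Dt hn hM hB hred

end Pool.Agent.Helper95_CM.H34
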