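import Pool.Agent.Helper95_CM.CA

set_option autoImplicit false

noncomputable section

namespace Pool.Agent.Helper95_CM.H34

open Pool.Agent.Helper95_CM

variable {n : ℕ}

lemma srt_iff (s : Expo n) (π : Equiv.Perm (Fin n)) :
    π = srt s ↔ (∀ i j : Fin n, i ≤ j → s (π j).succ ≤ s (π i).succ) ∧
      ∀ i j : Fin n, i < j → s (π i).succ = s (π j).succ → π i < π j := by
  unfold srt
  rw [Tuple.eq_sort_iff]
  constructor
  · rintro ⟨h1, h2⟩
    refine ⟨fun i j hij => ?_, fun i j hij he => h2 i j hij ?_⟩
    · have := h1 hij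
      simpa using this
    · simpa using he
  · rintro ⟨h1, h2⟩
    refine ⟨fun i j hij => ?_, fun i j hij he => h2 i j hij ?_⟩
    · have := h1 i j hij
      simpa using this
    · simpa using he

lemma srt_anti (s : Expo n) {i j : Fin n} (h : i ≤ j) :
    s (srt s j).succ ≤ s (srt s i).succ := ((srt_iff s (srt s)).mp rfl).1 i j h

lemma srt_tie (s : Expo n) {i j : Fin n} (h : i < j)
    (he : s (srt s i).succ = s (srt s j).succ) : srt s i < srt s j :=
  ((srt_iff s (srt s)).mp rfl).2 i j h he

lemma srt_tie_le (s : Expo n) {i j : Fin n} (h : i ≤ j)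
    (he : s (srt s i).succ = s (srt s j).succ) : srt s i ≤ srt s j := by
  rcases h.lt_or_eq with h | h
  · exact (srt_tie s h he).le
  · rw [h]

@[simp] lemma vx_zero (M : ℕ) (S : Finset (Fin n)) : vx M S 0 = 1 := rfl
@[simp] lemma vx_succ (M : ℕ) (S : Finset (Fin n)) (k : Fin n) :
    vx M S k.succ = if k ∈ S then M else 0 := rfl

@[simp] lemma mem_ini (π : Equiv.Perm (Fin n)) (r : ℕ) (k : Fin n) :
    k ∈ ini π r ↔ ((π.symm k : Fin n) : ℕ) < r := by
  simp [ini]

lemma mem_ini_apply (π : Equiv.Perm (Fin n)) (r : ℕ) (i : Fin n) :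
    π i ∈ ini π r ↔ (i : ℕ) < r := by
  simp

lemma Vs_zero (M : ℕ) (s : Expo n) : Vs M s 0 = M * s 0 := by simp [Vs]

lemma Vs_succ (M : ℕ) (s : Expo n) (i : Fin n) : Vs M s (i + 1) = s (srt s i).succ := by
  simp [Vs]

lemma Vs_succ' (M : ℕ) (s : Expo n) {i : ℕ} (hi : i < n) :
    Vs M s (i + 1) = s (srt s ⟨i, hi⟩).succ := by
  simp [Vs, hi]

lemma Vs_last (M : ℕ) (s : Expo n) {i : ℕ} (hi : n ≤ i) : Vs M s (i + 1) = 0 := by
  simp [Vs, Nat.not_lt.mpr hi]

lemma cone_le {M : ℕ} {b : Bool} {s : Expo n} (h : InCone M b s) (k : Fin n) :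
    s k.succ ≤ M * s 0 := by
  cases b
  · exact h k
  · exact (h k).2.le

/-- `Vs` is decreasing on the cone -/
lemma Vs_step {M : ℕ} {b : Bool} {s : Expo n} (h : InCone M b s) (r : ℕ) :
    Vs M s (r + 1) ≤ Vs M s r := by
  by_cases hr : r < n
  · rw [Vs_succ' M s hr]
    rcases Nat.eq_zero_or_pos r with h0 | h0
    · subst h0
      rw [Vs_zero]
      exact cone_le h _
    · obtain ⟨q, rfl⟩ : ∃ q, r = q + 1 := ⟨r - 1, by omega⟩
      rw [Vs_succ' M s (by omega : q < n)]
      apply srt_anti
      rw [Fin.mk_le_mk]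
      omega
  · rw [Vs_last M s (by omega)]
    exact Nat.zero_le _

lemma Vs_anti {M : ℕ} {b : Bool} {s : Expo n} (h : InCone M b s) {r r' : ℕ} (hr : r ≤ r') :
    Vs M s r' ≤ Vs M s r := by
  induction r', hr using Nat.le_induction with
  | base => exact le_refl _
  | succ m _ ih => exact (Vs_step h m).trans ih

lemma lmb_add {M : ℕ} {b : Bool} {s : Expo n} (h : InCone M b s) (r : ℕ) :
    Vs M s (r + 1) + lmb M s r = Vs M s r := by
  unfold lmb
  have := Vs_step h r
  omega

/-- the last item of SORT -/
lemma dlt_le {M : ℕ} {b : Bool} {s : Expo n} (hn : 1 ≤ n) (h : InCone M b s) {r : ℕ}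
    (hr : r ≤ n) : dlt b s r ≤ lmb M s r := by
  have h1 := lmb_add h r
  unfold dlt
  by_cases h0 : r = 0 ∨ r = n
  · rw [if_pos h0]
    cases b with
    | false => simp
    | true =>
      rw [if_pos rfl]
      rcases h0 with h0 | h0
      · subst h0
        rw [Vs_zero, Vs_succ' M s (by omega : 0 < n)] at h1
        have := (h (srt s ⟨0, by omega⟩)).2
        omega
      · subst h0
        rw [Vs_last M s le_rfl] at h1
        obtain ⟨q, rfl⟩ : ∃ q, r = q + 1 := ⟨r - 1, by omega⟩
        rw [Vs_succ' M s (by omega : q < q + 1)] at h1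
        have := (h (srt s ⟨q, by omega⟩)).1
        omega
  · rw [if_neg h0]
    push Not at h0
    have hlt : r < n := by omega
    rw [dif_pos hlt]
    split_ifs with hd
    · obtain ⟨q, rfl⟩ : ∃ q, r = q + 1 := ⟨r - 1, by omega⟩
      rw [Vs_succ' M s hlt, Vs_succ' M s (by omega : q < n)] at h1
      by_contra hc
      have he : s (srt s ⟨q, by omega⟩).succ = s (srt s ⟨q + 1, hlt⟩).succ := by omega
      have := srt_tie s (i := ⟨q, by omega⟩) (j := ⟨q + 1, hlt⟩) (by
        rw [Fin.mk_lt_mk]; omega) he
      exact absurd hd (not_lt.mpr this.le)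
    · exact Nat.zero_le _

/-- adding an initial vertex does not change the sort -/
lemma srt_add {M : ℕ} (hM : 1 ≤ M) (s : Expo n) (r : ℕ) :
    srt (s + vx M (ini (srt s) r)) = srt s := by
  symm
  rw [srt_iff]
  have hval : ∀ i : Fin n, (s + vx M (ini (srt s) r)) (srt s i).succ
      = s (srt s i).succ + if (i : ℕ) < r then M else 0 := by
    intro i
    rw [Finsupp.add_apply, vx_succ]
    simp only [mem_ini_apply]
  constructor
  · intro i j hij
    rw [hval, hval]
    have h1 := srt_anti s hij
    have h2 : (i : ℕ) ≤ j := hij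
    split_ifs <;> omega
  · intro i j hij he
    rw [hval, hval] at he
    have h1 := srt_anti s hij.le
    have h2 : (i : ℕ) < j := hij
    apply srt_tie s hij
    split_ifs at he <;> omega

lemma Vs_add {M : ℕ} (hM : 1 ≤ M) (s : Expo n) {r : ℕ} (hr : r ≤ n) (j : ℕ) :
    Vs M (s + vx M (ini (srt s) r)) j = Vs M s j + if j ≤ r then M else 0 := by
  rcases Nat.eq_zero_or_pos j with h0 | h0
  · subst h0
    rw [Vs_zero, Vs_zero, if_pos (Nat.zero_le _), Finsupp.add_apply, vx_zero]
    ring
  · obtain ⟨q, rfl⟩ : ∃ q, j = q + 1 := ⟨j - 1, by omega⟩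
    by_cases hq : q < n
    · rw [Vs_succ' _ _ hq, Vs_succ' _ _ hq, srt_add hM, Finsupp.add_apply, vx_succ]
      simp only [mem_ini_apply]
      congr 1
    · rw [Vs_last _ _ (by omega), Vs_last _ _ (by omega), if_neg (by omega)]

lemma cone_add {M : ℕ} {b : Bool} (hM : 1 ≤ M) {s : Expo n} (h : InCone M b s)
    (S : Finset (Fin n)) : InCone M b (s + vx M S) := by
  cases b with
  | false =>
    intro k
    have := h k
    rw [Finsupp.add_apply, Finsupp.add_apply, vx_succ, vx_zero, Nat.mul_add]
    split_ifs <;> omega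
  | true =>
    intro k
    have := h k
    rw [Finsupp.add_apply, Finsupp.add_apply, vx_succ, vx_zero, Nat.mul_add]
    split_ifs <;> omega

lemma lmb_add_vx {M : ℕ} {b : Bool} (hM : 1 ≤ M) {s : Expo n} (h : InCone M b s) {r : ℕ}
    (hr : r ≤ n) (j : ℕ) :
    lmb M (s + vx M (ini (srt s) r)) j = lmb M s j + (if j = r then M else 0) := by
  unfold lmb
  rw [Vs_add hM s hr, Vs_add hM s hr]
  have := Vs_step h j
  by_cases h1 : j = r
  · subst h1
    rw [if_pos le_rfl, if_neg (by omega), if_pos rfl]
    omega
  · rw [if_neg h1]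
    by_cases h2 : j ≤ r
    · rw [if_pos h2, if_pos (by omega)]
      omega
    · rw [if_neg h2, if_neg (by omega)]
      omega

/-- removing an initial vertex -/
lemma remove {M : ℕ} {b : Bool} (hn : 1 ≤ n) (hM : 1 ≤ M) {s : Expo n} (h : InCone M b s) {r : ℕ}
    (hr : r ≤ n) (hl : M + dlt b s r ≤ lmb M s r) :
    ∃ s1 : Expo n, InCone M b s1 ∧ srt s1 = srt s ∧ s = s1 + vx M (ini (srt s) r) := by
  have hlr := lmb_add h r
  have hV0 := Vs_anti h (Nat.zero_le r)
  rw [Vs_zero] at hV0
  have hs0 : 1 ≤ s 0 := by
    by_contra hc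
    have : s 0 = 0 := by omega
    rw [this, Nat.mul_zero] at hV0
    omega
  obtain ⟨l, hl0⟩ : ∃ l, s 0 = l + 1 := ⟨s 0 - 1, by omega⟩
  -- values on the segment
  have hin : ∀ i : Fin n, (i : ℕ) < r → Vs M s r ≤ s (srt s i).succ := by
    intro i hi
    rw [← Vs_succ M s i]
    exact Vs_anti h (by omega)
  have hout : ∀ i : Fin n, ¬ (i : ℕ) < r → s (srt s i).succ ≤ Vs M s (r + 1) := by
    intro i hi
    rw [← Vs_succ M s i]
    exact Vs_anti h (by omega)
  set s1 : Expo n := mkE l (fun k => s k.succ - if k ∈ ini (srt s) r then M else 0) with hs1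
  have hval : ∀ i : Fin n, s1 (srt s i).succ = s (srt s i).succ - if (i : ℕ) < r then M else 0 := by
    intro i
    rw [hs1, mkE_succ]
    simp only [mem_ini_apply]
  have heq : s = s1 + vx M (ini (srt s) r) := by
    ext k
    refine Fin.cases ?_ (fun k => ?_) k
    · rw [Finsupp.add_apply, vx_zero, hs1, mkE_zero, hl0]
    · obtain ⟨i, rfl⟩ := (srt s).surjective k
      rw [Finsupp.add_apply, vx_succ, hval]
      simp only [mem_ini_apply]
      by_cases hi : (i : ℕ) < r
      · rw [if_pos hi]
        have := hin i hi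
        omega
      · rw [if_neg hi]
        omega
  -- the boundary
  have hdl : r = 0 ∨ r = n → b = true → dlt b s r = 1 := by
    intro h0 hb
    unfold dlt
    rw [if_pos h0, if_pos hb]
  refine ⟨s1, ?_, ?_, heq⟩
  · cases b with
    | false =>
      intro k
      obtain ⟨i, rfl⟩ := (srt s).surjective k
      rw [hval]
      have h00 : s1 0 = l := rfl
      rw [h00]
      have hc := h (srt s i)
      rw [hl0, Nat.mul_add] at hc
      rw [hl0, Nat.mul_add] at hV0
      by_cases hi : (i : ℕ) < r
      · rw [if_pos hi]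
        omega
      · rw [if_neg hi]
        have := hout i hi
        omega
    | true =>
      intro k
      obtain ⟨i, rfl⟩ := (srt s).surjective k
      rw [hval]
      have h00 : s1 0 = l := rfl
      rw [h00]
      have hc := h (srt s i)
      rw [hl0, Nat.mul_add] at hc
      rw [hl0, Nat.mul_add] at hV0
      by_cases hi : (i : ℕ) < r
      · rw [if_pos hi]
        have h1 := hin i hi
        have h3 : 1 ≤ Vs M s (r + 1) + dlt true s r := by
          by_cases hrn : r = n
          · rw [hdl (Or.inr hrn) rfl]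
            omega
          · rw [Vs_succ' M s (by omega : r < n)]
            have := (h (srt s ⟨r, by omega⟩)).1
            omega
        omega
      · rw [if_neg hi]
        have h1 := hout i hi
        have h3 : Vs M s r + 1 ≤ M * l + M * 1 + dlt true s r := by
          by_cases hr0 : r = 0
          · rw [hdl (Or.inl hr0) rfl]
            omega
          · obtain ⟨q, hq⟩ : ∃ q, r = q + 1 := ⟨r - 1, by omega⟩
            subst hq
            rw [Vs_succ' M s (by omega : q < n)]
            have := (h (srt s ⟨q, by omega⟩)).2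
            rw [hl0, Nat.mul_add] at this
            omega
        omega
  · symm
    rw [srt_iff]
    constructor
    · intro i j hij
      rw [hval, hval]
      have h1 := srt_anti s hij
      have h2 : (i : ℕ) ≤ j := hij
      by_cases hj : (j : ℕ) < r
      · rw [if_pos hj, if_pos (by omega)]
        omega
      · rw [if_neg hj]
        by_cases hi : (i : ℕ) < r
        · rw [if_pos hi]
          have h3 := hin i hi
          have h4 := hout j hj
          omega
        · rw [if_neg hi]
          omega
    · intro i j hij he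
      rw [hval, hval] at he
      have h1 := srt_anti s hij.le
      have h2 : (i : ℕ) < j := hij
      by_cases hj : (j : ℕ) < r
      · rw [if_pos hj, if_pos (by omega)] at he
        have h3 := hin i (by omega)
        have h4 := hin j hj
        apply srt_tie s hij
        omega
      · rw [if_neg hj] at he
        by_cases hi : (i : ℕ) < r
        · rw [if_pos hi] at he
          have h3 := hin i hi
          have h4 := hout j hj
          have hd : dlt b s r = 0 := by omega
          obtain ⟨q, hq⟩ : ∃ q, r = q + 1 := ⟨r - 1, by omega⟩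
          subst hq
          have hqn : q + 1 < n := by omega
          have h5 : Vs M s (q + 1) = s (srt s ⟨q, by omega⟩).succ := Vs_succ' M s (by omega)
          have h6 : Vs M s (q + 1 + 1) = s (srt s ⟨q + 1, hqn⟩).succ := Vs_succ' M s hqn
          have hnd : ¬ (srt s ⟨q + 1, hqn⟩ < srt s ⟨q, by omega⟩) := by
            intro hlt
            unfold dlt at hd
            rw [if_neg (by omega), dif_pos hqn] at hd
            rw [if_pos (show srt s ⟨q + 1, hqn⟩ < srt s ⟨q + 1 - 1, by omega⟩ from hlt)] at hd
            exact one_ne_zero hd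
          have h7 : srt s ⟨q, by omega⟩ ≠ srt s ⟨q + 1, hqn⟩ := by
            intro hc
            have := (srt s).injective hc
            rw [Fin.mk.injEq] at this
            omega
          have h8 : srt s ⟨q, by omega⟩ < srt s ⟨q + 1, hqn⟩ :=
            lt_of_le_of_ne (not_lt.mp hnd) h7
          have h9 : srt s i ≤ srt s ⟨q, by omega⟩ := by
            apply srt_tie_le s
            · rw [Fin.le_def]
              simp only
              omega
            · omega
          have h10 : srt s ⟨q + 1, hqn⟩ ≤ srt s j := by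
            apply srt_tie_le s
            · rw [Fin.le_def]
              simp only
              omega
            · omega
          exact lt_of_le_of_lt h9 (lt_of_lt_of_le h8 h10)
        · rw [if_neg hi] at he
          apply srt_tie s hij
          omega

theorem sort : SortStmt := by
  intro n M b s hn hM h
  refine ⟨fun r hr => ⟨cone_add hM h _, srt_add hM s r, fun r' _ => lmb_add_vx hM h hr r'⟩,
    fun r hr hl => remove hn hM h hr hl, fun r hr => dlt_le hn h hr⟩

end Pool.Agent.Helper95_CM.H34
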