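import Pool.Agent.Helper98_CM.IFN
import Pool.Agent.Helper95_CM.Lsm
import Pool.Agent.Helper77_CM.Ee
import Pool.Agent.Helper77_CM.Gam

/-!
# VALI: `p^(n+1)` divides `I(Psi_J m_s)`
-/

set_option autoImplicit false
set_option linter.unusedSectionVars false

noncomputable section

namespace Pool.Agent.Helper95_CM.H34

open MvPolynomial

/-! ### factorials -/

lemma fac_norm (p : ℕ) [Fact p.Prime] (a b : ℕ) (ha : 1 ≤ a) (hb : 1 ≤ b) (hbp : b < p) :
    ‖(((p * a - b).factorial : ℕ) : ℚ_[p])‖ =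
      ((p : ℝ) ^ (a - 1))⁻¹ * ‖(((a - 1).factorial : ℕ) : ℚ_[p])‖ := by
  have hp : p.Prime := Fact.out
  obtain ⟨a', rfl⟩ := Nat.exists_eq_add_of_le' ha
  have e1 : p * (a' + 1) - b = p * a' + (p - b) := by
    rw [mul_add, mul_one]; omega
  rw [e1, Nat.add_sub_cancel]
  have h1 : padicValNat p (p * a' + (p - b)).factorial = padicValNat p a'.factorial + a' := by
    rw [padicValNat_factorial_mul_add a' (by omega), padicValNat_factorial_mul]
  have h2 : (((p * a' + (p - b)).factorial : ℕ) : ℚ_[p]) ≠ 0 := by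
    exact_mod_cast Nat.factorial_ne_zero _
  have h3 : ((a'.factorial : ℕ) : ℚ_[p]) ≠ 0 := by
    exact_mod_cast Nat.factorial_ne_zero _
  rw [Padic.norm_eq_zpow_neg_valuation h2, Padic.norm_eq_zpow_neg_valuation h3,
    Padic.valuation_natCast, Padic.valuation_natCast, h1]
  have hp0 : (p : ℝ) ≠ 0 := by exact_mod_cast hp.ne_zero
  rw [← zpow_natCast, ← zpow_neg, ← zpow_add₀ hp0]
  congr 1
  push_cast
  ring

lemma fac_norm_pos (p : ℕ) [Fact p.Prime] (a : ℕ) : 0 < ‖((a.factorial : ℕ) : ℚ_[p])‖ := by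
  rw [norm_pos_iff]
  exact_mod_cast Nat.factorial_ne_zero _

lemma term_norm (p : ℕ) [Fact p.Prime] (A M u e v : ℕ) (hu : 0 < u) (huM : u < M) (hM : M < p)
    (hv : p * v = u + e) (he : e ≤ p * A - M) (hA : 1 ≤ A) :
    ‖((((p * A - M).choose e : ℕ) : ℚ_[p]) * ((H98.bet v (A - v) : ℚ) : ℚ_[p]))‖ ≤ (p : ℝ)⁻¹ := by
  have hp : p.Prime := Fact.out
  have hpA : M < p * A := lt_of_lt_of_le hM (Nat.le_mul_of_pos_right p hA)
  have hv1 : 1 ≤ v := by
    rcases Nat.eq_zero_or_pos v with h | h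
    · rw [h] at hv; omega
    · exact h
  have hvA : v < A := by
    have h1 : p * v < p * A := by omega
    exact Nat.lt_of_mul_lt_mul_left h1
  obtain ⟨w, hw⟩ : ∃ w, A = v + w := ⟨A - v, by omega⟩
  have hw1 : 1 ≤ w := by omega
  have hpw : p * A = p * v + p * w := by rw [hw, mul_add]
  have hww : A - v = w := by omega
  have e1 : e = p * v - u := by omega
  have e2 : p * A - M - e = p * w - (M - u) := by omega
  have n1 := fac_norm p A M hA (by omega) hM
  have n2 := fac_norm p v u hv1 hu (by omega)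
  have n3 := fac_norm p w (M - u) hw1 (by omega) (by omega)
  rw [← e1] at n2
  rw [← e2] at n3
  have hc := Nat.choose_mul_factorial_mul_factorial he
  have hc' : (((p * A - M).choose e : ℕ) : ℚ_[p]) * ((e.factorial : ℕ) : ℚ_[p]) *
      (((p * A - M - e).factorial : ℕ) : ℚ_[p]) = (((p * A - M).factorial : ℕ) : ℚ_[p]) := by
    exact_mod_cast hc
  have hcn := congrArg norm hc'
  rw [norm_mul, norm_mul, n1, n2, n3] at hcn
  have hb : ((H98.bet v (A - v) : ℚ) : ℚ_[p]) * (((A - 1).factorial : ℕ) : ℚ_[p]) =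
      (((v - 1).factorial : ℕ) : ℚ_[p]) * (((w - 1).factorial : ℕ) : ℚ_[p]) := by
    have h0 : (H98.bet v (A - v) : ℚ) * (((A - 1).factorial : ℕ) : ℚ) =
        (((v - 1).factorial : ℕ) : ℚ) * (((w - 1).factorial : ℕ) : ℚ) := by
      unfold H98.bet
      rw [hww, show v + w - 1 = A - 1 by omega]
      have : (((A - 1).factorial : ℕ) : ℚ) ≠ 0 := by positivity
      field_simp
    exact_mod_cast congrArg (fun q : ℚ => (q : ℚ_[p])) h0
  have hbn := congrArg norm hb
  rw [norm_mul, norm_mul] at hbn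
  rw [norm_mul]
  set c := ‖(((p * A - M).choose e : ℕ) : ℚ_[p])‖
  set d := ‖((H98.bet v (A - v) : ℚ) : ℚ_[p])‖
  have f1 := fac_norm_pos p (A - 1)
  have f2 := fac_norm_pos p (v - 1)
  have f3 := fac_norm_pos p (w - 1)
  set x := ‖(((A - 1).factorial : ℕ) : ℚ_[p])‖
  set y := ‖(((v - 1).factorial : ℕ) : ℚ_[p])‖
  set z := ‖(((w - 1).factorial : ℕ) : ℚ_[p])‖
  have hp0 : (0 : ℝ) < p := by exact_mod_cast hp.pos
  have e3 : A - 1 = (v - 1) + (w - 1) + 1 := by omega
  rw [e3, pow_succ, pow_add] at hcn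
  have q1 : (0 : ℝ) < (p : ℝ) ^ (v - 1) := by positivity
  have q2 : (0 : ℝ) < (p : ℝ) ^ (w - 1) := by positivity
  set P1 := (p : ℝ) ^ (v - 1)
  set P2 := (p : ℝ) ^ (w - 1)
  have h5 : c * (y * z) = (p : ℝ)⁻¹ * x := by
    have h6 : c * (P1⁻¹ * y) * (P2⁻¹ * z) = (c * (y * z)) * (P1⁻¹ * P2⁻¹) := by ring
    have h7 : (P1 * P2 * (p : ℝ))⁻¹ * x = ((p : ℝ)⁻¹ * x) * (P1⁻¹ * P2⁻¹) := by
      rw [mul_inv, mul_inv]; ring
    rw [h6, h7] at hcn
    have h8 : P1⁻¹ * P2⁻¹ ≠ 0 := by positivity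
    exact mul_right_cancel₀ h8 hcn
  have h9 : c * d = (p : ℝ)⁻¹ := by
    have h10 : (c * d) * x = (p : ℝ)⁻¹ * x := by
      rw [mul_assoc, hbn, h5]
    exact mul_right_cancel₀ f1.ne' h10
  rw [h9]

/-! ### the powers of `F` and the functional -/

section
variable {n M : ℕ} {K : Type} [Field K] [CharZero K]

lemma Ifun_F_mul (hn : 1 ≤ n) (hM : 1 ≤ M) {l : ℕ} {x : PP n K} (hx : HasLev l x)
    (hc : IsCone M true x) :
    Ifun M (Fp (fun β : Grid n M => ((bin β : ℕ) : K)) * x) = (l : K) * Ifun M x := by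
  have h := H98.ifn_one (R := K) hn hM 0 x hc
  rw [Dop_apply, hx.th_zero, Yp_zero, H98.Ifun_sub, H98.Ifun_C_mul, sub_eq_zero] at h
  exact h.symm

lemma Ifun_F_pow (hn : 1 ≤ n) (hM : 1 ≤ M) {i : ℕ} {x : PP n K} (hx : HasLev (i + 1) x)
    (hc : IsCone M true x) (k : ℕ) :
    ((i.factorial : ℕ) : K) * Ifun M (Fp (fun β : Grid n M => ((bin β : ℕ) : K)) ^ k * x) =
      (((i + k).factorial : ℕ) : K) * Ifun M x := by
  induction k with
  | zero => rw [pow_zero, one_mul, add_zero]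
  | succ k ih =>
    have hl : HasLev (k + (i + 1)) (Fp (fun β : Grid n M => ((bin β : ℕ) : K)) ^ k * x) := by
      have h1 := (HasLev.pow (hasLev_Fp (fun β : Grid n M => ((bin β : ℕ) : K))) k).mul hx
      rwa [mul_one] at h1
    have hc' : IsCone M true (Fp (fun β : Grid n M => ((bin β : ℕ) : K)) ^ k * x) :=
      ((isCone_Fp _).pow k).mul hc
    rw [pow_succ, mul_comm (_ ^ k) (Fp _), mul_assoc, Ifun_F_mul hn hM hl hc',
      mul_left_comm, ih, ← mul_assoc]
    congr 1
    rw [show i + (k + 1) = (i + k) + 1 from rfl, Nat.factorial_succ]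
    push_cast
    ring

end

/-! ### expansion -/

section
variable {n : ℕ} {K : Type} [Field K] [CharZero K]

lemma Ep_expand (l : ℕ) (u m : Fin n → ℕ) : (H98.Ep K l u m : PP n K) =
    ∑ e ∈ Fintype.piFinset (fun k => Finset.range (m k + 1)),
      C (∏ k, (((m k).choose (e k) : ℕ) : K)) * mon (mkE l (fun k => u k + e k)) := by
  classical
  have h1 : ∀ k : Fin n, ((X k.succ : PP n K) ^ (u k) * (1 + X k.succ) ^ (m k)) =
      ∑ e ∈ Finset.range (m k + 1), C ((((m k).choose e : ℕ) : K)) * X k.succ ^ (u k + e) := by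
    intro k
    rw [add_comm (1 : PP n K), add_pow, Finset.mul_sum]
    apply Finset.sum_congr rfl
    intro e _
    rw [one_pow, mul_one, map_natCast, pow_add]
    ring
  unfold H98.Ep
  simp only [h1]
  rw [Finset.prod_univ_sum, Finset.mul_sum]
  apply Finset.sum_congr rfl
  intro e _
  rw [H98.mon_mkE, Finset.prod_mul_distrib, map_prod]
  unfold H98.Ep
  simp only [Pi.zero_apply, pow_zero, mul_one]
  ring

lemma Ep_pow (l : ℕ) (u m : Fin n → ℕ) (k : ℕ) :
    (H98.Ep K l u m : PP n K) ^ k = H98.Ep K (k * l) (fun j => k * u j) (fun j => k * m j) := by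
  induction k with
  | zero => simp [H98.Ep]
  | succ k ih =>
    rw [pow_succ, ih]
    exact H98.Ep_mul' (by ring) (fun j => by ring) (fun j => by ring)

lemma psi_mon_mkE {p : ℕ} (hp : 0 < p) (l : ℕ) (w : Fin n → ℕ) :
    psi p (mon (mkE (p * l) w) : PP n K) =
      open Classical in if ∀ k, p ∣ w k then mon (mkE l (fun k => w k / p)) else 0 := by
  classical
  split_ifs with h
  · have e : mkE (p * l) w = p • mkE l (fun k => w k / p) := by
      ext i
      refine Fin.cases ?_ (fun k => ?_) i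
      · rw [mkE_zero, Finsupp.smul_apply, mkE_zero, smul_eq_mul]
      · rw [mkE_succ, Finsupp.smul_apply, mkE_succ, smul_eq_mul, Nat.mul_div_cancel' (h k)]
    unfold mon
    rw [e, psi_monomial_smul hp]
  · ext s
    rw [coeff_psi hp, coeff_zero]
    unfold mon
    rw [coeff_monomial, if_neg]
    intro h1
    apply h
    intro k
    have := DFunLike.congr_fun h1 k.succ
    rw [mkE_succ, Finsupp.smul_apply, smul_eq_mul] at this
    exact ⟨_, this⟩

end

/-! ### the norm of the pieces -/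

section
variable {n M : ℕ} {p : ℕ} [Fact p.Prime]

lemma piece_norm (hM : M < p) (i : ℕ) (hM0 : 1 ≤ M) (u : Fin n → ℕ) (hu : ∀ k, 0 < u k ∧ u k < M) :
    ‖Ifun M (psi p (H98.Ep ℚ_[p] (p * (i + 1)) u (fun _ => p * (M * (i + 1)) - M)))‖ ≤
      ‖((i.factorial : ℕ) : ℚ_[p])‖ * ((p : ℝ) ^ n)⁻¹ := by
  classical
  have hp : p.Prime := Fact.out
  rw [Ep_expand, psi_sum hp.pos, H98.Ifun_sum]
  apply IsUltrametricDist.norm_sum_le_of_forall_le_of_nonneg (by positivity)
  intro e he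
  rw [psi_C_mul hp.pos, H98.Ifun_C_mul, psi_mon_mkE hp.pos]
  split_ifs with h
  · rw [Fintype.mem_piFinset] at he
    have he' : ∀ k, e k ≤ p * (M * (i + 1)) - M := by
      intro k
      have := he k
      rw [Finset.mem_range] at this
      omega
    have hv : ∀ k, p * ((u k + e k) / p) = u k + e k := fun k => Nat.mul_div_cancel' (h k)
    have hA : 1 ≤ M * (i + 1) := Nat.one_le_iff_ne_zero.mpr (by positivity)
    have hpA : M < p * (M * (i + 1)) := lt_of_lt_of_le hM (Nat.le_mul_of_pos_right p hA)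
    have hcone : ∀ k, 0 < (u k + e k) / p ∧ (u k + e k) / p < M * (i + 1) := by
      intro k
      constructor
      · rcases Nat.eq_zero_or_pos ((u k + e k) / p) with h0 | h0
        · have h1 := hv k
          rw [h0] at h1
          have := (hu k).1
          omega
        · exact h0
      · have h1 := hv k
        have h2 := he' k
        have h3 := (hu k).2
        have h4 : p * ((u k + e k) / p) < p * (M * (i + 1)) := by omega
        exact Nat.lt_of_mul_lt_mul_left h4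
    rw [H98.Ifun_mon, H98.Iq_mkE M (i + 1) _ hcone, Nat.add_sub_cancel, map_mul, map_prod,
      map_natCast, mul_left_comm, ← Finset.prod_mul_distrib, norm_mul]
    apply mul_le_mul_of_nonneg_left _ (norm_nonneg _)
    rw [norm_prod]
    have h5 : ∀ k : Fin n, ‖(((p * (M * (i + 1)) - M).choose (e k) : ℕ) : ℚ_[p]) *
        (algebraMap ℚ ℚ_[p]) (H98.bet ((u k + e k) / p) (M * (i + 1) - (u k + e k) / p))‖ ≤
        (p : ℝ)⁻¹ := by
      intro k
      exact term_norm p (M * (i + 1)) M (u k) (e k) ((u k + e k) / p) (hu k).1 (hu k).2 hM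
        (hv k) (he' k) hA
    calc _ ≤ ∏ k : Fin n, (p : ℝ)⁻¹ := Finset.prod_le_prod (fun _ _ => norm_nonneg _)
          (fun k _ => h5 k)
      _ = ((p : ℝ) ^ n)⁻¹ := by rw [Finset.prod_const, Finset.card_univ, Fintype.card_fin, inv_pow]
  · rw [H98.Ifun_zero, mul_zero, norm_zero]
    positivity

/-- `p^j ψ(Δ^j y)` -/
lemma pow_Dl {K : Type} [Field K] (hp : 0 < p) (F D y : PP n K)
    (hD : F ^ p = expand p F + C (p : K) * D) (j : ℕ) :
    C ((p : K) ^ j) * psi p (D ^ j * y) = ∑ i ∈ Finset.range (j + 1),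
      C ((-1) ^ (j - i) * ((j.choose i : ℕ) : K)) * (F ^ (j - i) * psi p (F ^ (p * i) * y)) := by
  rw [← psi_C_mul hp]
  have h1 : C ((p : K) ^ j) * (D ^ j * y) = (F ^ p + -(expand p F)) ^ j * y := by
    rw [hD, map_pow]
    ring
  rw [h1, add_pow, Finset.sum_mul, psi_sum hp]
  apply Finset.sum_congr rfl
  intro i _
  have h2 : (F ^ p) ^ i * (-(expand p F)) ^ (j - i) * ((j.choose i : ℕ) : PP n K) * y =
      C ((-1) ^ (j - i) * ((j.choose i : ℕ) : K)) * ((F ^ (p * i) * y) * expand p (F ^ (j - i))) := by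
    rw [map_mul, map_pow, map_neg, map_one, map_natCast, map_pow, pow_mul,
      neg_pow (expand p F) (j - i)]
    ring
  rw [h2, psi_C_mul hp, psi_mul_expand hp]
  ring

lemma norm_le_of_fac (J : ℕ) (S e : ℚ_[p]) (B : ℝ)
    (he : ((J.factorial : ℕ) : ℚ_[p]) * e = (-(p : ℚ_[p])) ^ J)
    (hS : ‖(p : ℚ_[p]) ^ J * S‖ ≤ ‖((J.factorial : ℕ) : ℚ_[p])‖ * B) : ‖e * S‖ ≤ B := by
  have h1 : ‖((J.factorial : ℕ) : ℚ_[p])‖ * ‖e * S‖ = ‖(p : ℚ_[p]) ^ J * S‖ := by
    rw [← norm_mul, ← mul_assoc, he, norm_mul, norm_mul, norm_pow, norm_pow, norm_neg]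
  have h2 := fac_norm_pos p J
  rw [← h1] at hS
  exact le_of_mul_le_mul_left hS h2

theorem vali : ValiStmt := by
  intro n M p J _ hn hM2 hM hp3 Dl hDl s hs hs0
  have hp : p.Prime := Fact.out
  obtain ⟨-, hee, -⟩ := H77.ee' p hp3
  set F : PP n ℚ_[p] := Fp (fun β : Grid n M => ((bin β : ℕ) : ℚ_[p])) with hF
  set D : PP n ℚ_[p] := map (zq p) Dl with hD
  have hFm : map (zq p) (Fp (fun β : Grid n M => ((bin β : ℕ) : ℤ_[p]))) = F := by
    rw [map_Fp]
    simp only [map_natCast]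
    rfl
  have hFD : F ^ p = expand p F + C (p : ℚ_[p]) * D := by
    have h1 := congrArg (map (zq p)) hDl
    rw [map_pow, map_add, map_mul, hFm, map_expand, map_C, map_natCast] at h1
    rw [h1]
    congr 2
  -- the operator on a level one monomial
  obtain ⟨-, hg1, -, -, -, -, -, hm1⟩ := H77.gam' p hp hp3
  have hmm : mm p 1 = 1 := hm1 1 le_rfl (by omega)
  have hlev : HasLev 1 (mon s : PP n ℤ_[p]) := Supp.monomial hs0 1
  have hPsi : map (zq p) (Psi p (RingHom.id ℤ_[p]) J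
      (Fp (fun β : Grid n M => ((bin β : ℕ) : ℤ_[p]))) Dl (mon s)) =
      ∑ j ∈ Finset.range J, C ((p : ℚ_[p]) * zq p (ee p j)) *
        psi p (D ^ j * (mon s * F ^ (p - 1))) := by
    unfold Psi
    rw [VV_hasLev p _ hlev, hmm, hg1, mul_one, ← psi_map hp.pos, map_mul, map_mul, map_mul,
      map_pow, hFm, map_mon, map_C, map_natCast]
    unfold TJ
    rw [map_sum, Finset.sum_mul, psi_sum hp.pos]
    apply Finset.sum_congr rfl
    intro j _
    rw [← psi_C_mul hp.pos, map_mul, map_pow, map_C, RingHom.id_apply, map_mul]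
    congr 1
    ring
  rw [hPsi, H98.Ifun_sum]
  apply IsUltrametricDist.norm_sum_le_of_forall_le_of_nonneg (by positivity)
  intro j _
  rw [H98.Ifun_C_mul, mul_assoc, norm_mul]
  have hpn : ‖(p : ℚ_[p])‖ = (p : ℝ)⁻¹ := Padic.norm_p
  rw [hpn, pow_succ, mul_inv, mul_comm ((p : ℝ) ^ n)⁻¹]
  apply mul_le_mul_of_nonneg_left _ (by positivity)
  apply norm_le_of_fac j _ _ _ (by
    have := congrArg (zq p) (hee j)
    rw [map_mul, map_natCast, map_pow, map_neg, map_natCast] at this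
    exact this)
  have hC : (p : ℚ_[p]) ^ j * Ifun M (psi p (D ^ j * (mon s * F ^ (p - 1)))) =
      Ifun M (C ((p : ℚ_[p]) ^ j) * psi p (D ^ j * (mon s * F ^ (p - 1)))) := by
    rw [H98.Ifun_C_mul]
  rw [hC, pow_Dl hp.pos F D _ hFD j, H98.Ifun_sum]
  apply IsUltrametricDist.norm_sum_le_of_forall_le_of_nonneg (by positivity)
  intro i hi
  have hij : i ≤ j := by
    rw [Finset.mem_range] at hi
    omega
  have hz : F ^ (p * i) * (mon s * F ^ (p - 1)) =
      H98.Ep ℚ_[p] (p * (i + 1)) (fun k => s k.succ) (fun _ => p * (M * (i + 1)) - M) := by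
    have h1 : F ^ (p * i) * (mon s * F ^ (p - 1)) = mon s * F ^ (p * i + (p - 1)) := by
      rw [pow_add]; ring
    have h2 : F = H98.Ep ℚ_[p] 1 0 (fun _ => M) := H98.Fp_bin
    rw [h1, h2, Ep_pow, H98.mon_eq_Ep]
    apply H98.Ep_mul'
    · rw [hs0, mul_one, mul_add, mul_one]
      have := hp.pos
      omega
    · intro k
      simp
    · intro k
      rw [Pi.zero_apply, zero_add]
      have h3 : p * (M * (i + 1)) = p * i * M + p * M := by ring
      have h4 : (p * i + (p - 1)) * M = p * i * M + (p - 1) * M := by ring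
      have h5 : p * M = (p - 1) * M + M := by
        have : p = (p - 1) + 1 := by have := hp.pos; omega
        conv_lhs => rw [this]
        ring
      rw [h3, h4, h5]
      omega
  rw [hz]
  set x : PP n ℚ_[p] := psi p (H98.Ep ℚ_[p] (p * (i + 1)) (fun k => s k.succ)
    (fun _ => p * (M * (i + 1)) - M)) with hx
  have hpc := piece_norm (n := n) hM i (by omega) (fun k => s k.succ) (fun k => by
    have := hs k
    rw [hs0, mul_one] at this
    exact this)
  rw [← hx] at hpc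
  have hzl : HasLev (p * (i + 1)) (F ^ (p * i) * (mon s * F ^ (p - 1))) := by
    have h1 : HasLev (p * i * 1 + (1 + (p - 1) * 1)) (F ^ (p * i) * (mon s * F ^ (p - 1))) :=
      ((hasLev_Fp _).pow _).mul (HasLev.mul (Supp.monomial hs0 1) ((hasLev_Fp _).pow _))
    have h2 : p * i * 1 + (1 + (p - 1) * 1) = p * (i + 1) := by
      have := hp.pos
      rw [mul_one, mul_one, mul_add, mul_one]
      omega
    rwa [h2] at h1
  have hzc : IsCone M true (F ^ (p * i) * (mon s * F ^ (p - 1))) := by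
    apply ((isCone_Fp _).pow _).mul
    rw [mul_comm]
    exact ((isCone_Fp _).pow _).mul (Supp.monomial hs 1)
  have hxl : HasLev (i + 1) x := by
    rw [hx, ← hz]
    refine Supp.psi hp.pos ?_ hzl
    intro s' hs'
    rw [Finsupp.smul_apply, smul_eq_mul] at hs'
    exact Nat.eq_of_mul_eq_mul_left hp.pos hs'
  have hxc : IsCone M true x := by
    rw [hx, ← hz]
    exact hzc.psi hp.pos
  have hf := Ifun_F_pow hn (by omega) hxl hxc (j - i)
  rw [show i + (j - i) = j by omega] at hf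
  have hf' := congrArg norm hf
  rw [norm_mul, norm_mul] at hf'
  have hi0 := fac_norm_pos p i
  have hfin : ‖Ifun M (F ^ (j - i) * x)‖ ≤ ‖((j.factorial : ℕ) : ℚ_[p])‖ * ((p : ℝ) ^ n)⁻¹ := by
    have h1 : ‖((i.factorial : ℕ) : ℚ_[p])‖ * ‖Ifun M (F ^ (j - i) * x)‖ ≤
        ‖((i.factorial : ℕ) : ℚ_[p])‖ * (‖((j.factorial : ℕ) : ℚ_[p])‖ * ((p : ℝ) ^ n)⁻¹) := by
      rw [hf']
      calc _ ≤ ‖((j.factorial : ℕ) : ℚ_[p])‖ *
            (‖((i.factorial : ℕ) : ℚ_[p])‖ * ((p : ℝ) ^ n)⁻¹) :=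
            mul_le_mul_of_nonneg_left hpc (norm_nonneg _)
        _ = _ := by ring
    exact le_of_mul_le_mul_left h1 hi0
  rw [H98.Ifun_C_mul, norm_mul, norm_mul, norm_pow, norm_neg, norm_one, one_pow, one_mul]
  calc _ ≤ 1 * ‖Ifun M (F ^ (j - i) * x)‖ := by
        apply mul_le_mul_of_nonneg_right _ (norm_nonneg _)
        have h := Padic.norm_int_le_one (p := p) ((j.choose i : ℕ) : ℤ)
        rwa [Int.cast_natCast] at h
    _ ≤ _ := by rw [one_mul]; exact hfin

end

end Pool.Agent.Helper95_CM.H34
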