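import Pool.Agent.Helper34_CM.Omg
import Pool.Agent.Helper95_CM.NN

set_option autoImplicit false

noncomputable section

namespace Pool.Agent.Helper95_CM.H34

open Pool.Agent.Helper95_CM MvPolynomial

/-! ### general lemmas over a field of coefficients -/

section gen
variable {k : Type} [Field k] [CharZero k] {I : Type} [Fintype I] [DecidableEq I]

/-- coefficient of the lowest order of a product -/
lemma coeff_mul_low {R : Type} [CommRing R] {a : ℤ} {x y : LaurentSeries R} (hx : OrdGe 0 x)
    (hy : OrdGe a y) : (x * y).coeff a = x.coeff 0 * y.coeff a := by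
  classical
  rw [HahnSeries.coeff_mul]
  by_cases h : x.coeff 0 = 0 ∨ y.coeff a = 0
  · have h1 : x.coeff 0 * y.coeff a = 0 := by
      rcases h with h | h
      · rw [h, zero_mul]
      · rw [h, mul_zero]
    rw [h1]
    apply Finset.sum_eq_zero
    rintro ⟨i, j⟩ hij
    rw [Finset.mem_antidiagonal] at hij
    obtain ⟨hi, hj, he⟩ := hij
    simp only at hi hj he ⊢
    have hi0 : 0 ≤ i := by
      by_contra hc
      exact hi (hx i (not_le.mp hc))
    have hj0 : a ≤ j := by
      by_contra hc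
      exact hj (hy j (not_le.mp hc))
    have e1 : i = 0 := by omega
    have e2 : j = a := by omega
    rw [e1, e2]
    exact h1
  · push Not at h
    rw [Finset.sum_eq_single (0, a)]
    · rintro ⟨i, j⟩ hij hne
      exfalso
      rw [Finset.mem_antidiagonal] at hij
      obtain ⟨hi, hj, he⟩ := hij
      simp only at hi hj he
      have hi0 : 0 ≤ i := by
        by_contra hc
        exact hi (hx i (not_le.mp hc))
      have hj0 : a ≤ j := by
        by_contra hc
        exact hj (hy j (not_le.mp hc))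
      apply hne
      rw [Prod.mk.injEq]
      omega
    · intro hne
      exfalso
      apply hne
      rw [Finset.mem_antidiagonal]
      exact ⟨h.1, h.2, zero_add a⟩

/-- one step `(∇ + i)/i` -/
def stp (Q : Matrix I I (LaurentSeries k)) (i : ℕ) (y : I → LaurentSeries k) :
    I → LaurentSeries k :=
  fun j => HahnSeries.C ((i : k)⁻¹) * (nbv (tht k) Q y j + HahnSeries.C (i : k) * y j)

lemma coeff_C_mul' {R : Type} [CommRing R] (a : R) (x : LaurentSeries R) (m : ℤ) :
    (HahnSeries.C a * x).coeff m = a * x.coeff m := by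
  rw [HahnSeries.C_mul_eq_smul, HahnSeries.coeff_smul, smul_eq_mul]

lemma nbv_apply (Q : Matrix I I (LaurentSeries k)) (y : I → LaurentSeries k) (j : I) :
    nbv (tht k) Q y j = tht k (y j) + ∑ i, Q j i * y i := rfl

lemma nbv_ord {Q : Matrix I I (LaurentSeries k)} (hQ : PolF Q) {a : ℤ} {y : I → LaurentSeries k}
    (hy : ∀ j, OrdGe a (y j)) (j : I) : OrdGe a (nbv (tht k) Q y j) := by
  rw [nbv_apply]
  refine (OrdGe.tht (hy j)).add (OrdGe.sum _ _ fun i _ => ?_)
  have := (hQ j i).mul (hy i)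
  rwa [zero_add] at this

lemma C_mul_ord {R : Type} [CommRing R] (c : R) {a : ℤ} {x : LaurentSeries R} (hx : OrdGe a x) :
    OrdGe a (HahnSeries.C c * x) := by
  have := (ordGe_C c).mul hx
  rwa [zero_add] at this

lemma stp_ord {Q : Matrix I I (LaurentSeries k)} (hQ : PolF Q) (i : ℕ) {a : ℤ}
    {y : I → LaurentSeries k} (hy : ∀ j, OrdGe a (y j)) (j : I) : OrdGe a (stp Q i y j) := by
  unfold stp
  exact C_mul_ord _ ((nbv_ord hQ hy j).add (C_mul_ord _ (hy j)))

/-- the lowest coefficient of a step -/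
lemma stp_low {Q : Matrix I I (LaurentSeries k)} (hQ : PolF Q) (i : ℕ)
    {y : I → LaurentSeries k} (hy : ∀ j, OrdGe (-(i : ℤ)) (y j)) :
    (fun j => (stp Q i y j).coeff (-(i : ℤ))) =
      (i : k)⁻¹ • ((mco 0 Q).mulVec fun j => (y j).coeff (-(i : ℤ))) := by
  funext j
  unfold stp
  rw [coeff_C_mul', HahnSeries.coeff_add, coeff_C_mul', nbv_apply, HahnSeries.coeff_add,
    tht_coeff]
  have h1 : (∑ l, Q j l * y l).coeff (-(i : ℤ)) = ∑ l, (Q j l).coeff 0 * (y l).coeff (-(i : ℤ)) := by
    rw [HahnSeries.coeff_sum]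
    apply Finset.sum_congr rfl
    intro l _
    exact coeff_mul_low (hQ j l) (hy l)
  rw [h1, Pi.smul_apply, smul_eq_mul]
  congr 1
  have h2 : ((mco 0 Q).mulVec fun j => (y j).coeff (-(i : ℤ))) j
      = ∑ l, (Q j l).coeff 0 * (y l).coeff (-(i : ℤ)) := rfl
  rw [h2]
  push_cast
  ring

/-- iterated steps -/
def its (Q : Matrix I I (LaurentSeries k)) (i : ℕ) (r : ℕ) (y : I → LaurentSeries k) :
    I → LaurentSeries k := (stp Q i)^[r] y

lemma its_succ (Q : Matrix I I (LaurentSeries k)) (i r : ℕ) (y : I → LaurentSeries k) :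
    its Q i (r + 1) y = stp Q i (its Q i r y) := Function.iterate_succ_apply' _ _ _

lemma its_ord {Q : Matrix I I (LaurentSeries k)} (hQ : PolF Q) (i r : ℕ) {a : ℤ}
    {y : I → LaurentSeries k} (hy : ∀ j, OrdGe a (y j)) : ∀ j, OrdGe a (its Q i r y j) := by
  induction r with
  | zero => exact hy
  | succ r ih =>
    intro j
    rw [its_succ]
    exact stp_ord hQ i ih j

lemma its_low {Q : Matrix I I (LaurentSeries k)} (hQ : PolF Q) (i r : ℕ)
    {y : I → LaurentSeries k} (hy : ∀ j, OrdGe (-(i : ℤ)) (y j)) :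
    (fun j => (its Q i r y j).coeff (-(i : ℤ))) =
      ((i : k)⁻¹) ^ r • ((mco 0 Q ^ r).mulVec fun j => (y j).coeff (-(i : ℤ))) := by
  induction r with
  | zero =>
    rw [pow_zero, pow_zero, one_smul, Matrix.one_mulVec]
    rfl
  | succ r ih =>
    have h1 := stp_low hQ i (its_ord hQ i r hy)
    rw [ih] at h1
    simp only [its_succ]
    rw [h1, Matrix.mulVec_smul, smul_smul, pow_succ' (mco 0 Q), ← Matrix.mulVec_mulVec,
      pow_succ' ((i : k)⁻¹)]

/-- the steps raise the order -/
lemma its_raise {Q : Matrix I I (LaurentSeries k)} (hQ : PolF Q)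
    (hN : (mco 0 Q) ^ Fintype.card I = 0) (i : ℕ)
    {y : I → LaurentSeries k} (hy : ∀ j, OrdGe (-(i : ℤ)) (y j)) :
    ∀ j, OrdGe (-(i : ℤ) + 1) (its Q i (Fintype.card I) y j) := by
  intro j m hm
  have h1 := its_ord hQ i (Fintype.card I) hy j
  have h2 := its_low hQ i (Fintype.card I) hy
  rw [hN, Matrix.zero_mulVec, smul_zero] at h2
  rcases lt_or_eq_of_le (show m ≤ -(i : ℤ) by omega) with h | h
  · exact h1 m h
  · rw [h]
    exact congrFun h2 j

/-- all steps: `q0, q0-1, .., 1` -/
def als (Q : Matrix I I (LaurentSeries k)) : ℕ → (I → LaurentSeries k) → (I → LaurentSeries k)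
  | 0, y => y
  | q + 1, y => als Q q (its Q (q + 1) (Fintype.card I) y)

/-- invariants of single steps are invariants of `als` -/
lemma als_ind {Q : Matrix I I (LaurentSeries k)} (T : (I → LaurentSeries k) → Prop)
    (hT : ∀ i y, T y → T (stp Q (i + 1) y)) (q : ℕ) (y : I → LaurentSeries k) (hy : T y) :
    T (als Q q y) := by
  induction q generalizing y with
  | zero => exact hy
  | succ q ih =>
    apply ih
    have : ∀ r, T (its Q (q + 1) r y) := by
      intro r
      induction r with
      | zero => exact hy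
      | succ r ih2 =>
        rw [its_succ]
        exact hT q _ ih2
    exact this _

lemma als_ord {Q : Matrix I I (LaurentSeries k)} (hQ : PolF Q)
    (hN : (mco 0 Q) ^ Fintype.card I = 0) (q : ℕ) (y : I → LaurentSeries k)
    (hy : ∀ j, OrdGe (-(q : ℤ)) (y j)) : ∀ j, OrdGe 0 (als Q q y j) := by
  induction q generalizing y with
  | zero => simpa [als] using hy
  | succ q ih =>
    apply ih
    intro j
    have h1 := its_raise hQ hN (q + 1) hy j
    have h2 : -((q + 1 : ℕ) : ℤ) + 1 = -(q : ℤ) := by push_cast; ring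
    rwa [h2] at h1

/-- rows and the connection -/
lemma row_nbv (hD : IsDer (R := LaurentSeries k) (tht k)) (Q : Matrix I I (LaurentSeries k))
    (G y : I → LaurentSeries k) :
    ∑ j, G j * nbv (tht k) Q y j = tht k (∑ j, G j * y j)
      - ∑ j, (tht k (G j) - ∑ i, G i * Q i j) * y j := by
  have h1 : tht k (∑ j, G j * y j) = ∑ j, (tht k (G j) * y j + G j * tht k (y j)) := by
    rw [map_sum]
    exact Finset.sum_congr rfl fun j _ => hD _ _
  have h2 : ∑ j, (∑ i, G i * Q i j) * y j = ∑ j, G j * ∑ i, Q j i * y i := by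
    simp only [Finset.sum_mul, Finset.mul_sum]
    rw [Finset.sum_comm]
    apply Finset.sum_congr rfl
    intro i _
    apply Finset.sum_congr rfl
    intro j _
    ring
  simp only [nbv_apply, mul_add, sub_mul, Finset.sum_add_distrib, Finset.sum_sub_distrib]
  rw [h1, h2, Finset.sum_add_distrib]
  ring

lemma row_stp (hD : IsDer (R := LaurentSeries k) (tht k)) (Q : Matrix I I (LaurentSeries k))
    (i : ℕ) (G y : I → LaurentSeries k) :
    ∑ j, G j * stp Q i y j = HahnSeries.C ((i : k)⁻¹) * (tht k (∑ j, G j * y j)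
      + HahnSeries.C (i : k) * ∑ j, G j * y j
      - ∑ j, (tht k (G j) - ∑ i, G i * Q i j) * y j) := by
  have h := row_nbv hD Q G y
  unfold stp
  have h2 : ∑ j, G j * (HahnSeries.C ((i : k)⁻¹) * (nbv (tht k) Q y j + HahnSeries.C (i : k) * y j))
      = HahnSeries.C ((i : k)⁻¹) * (∑ j, G j * nbv (tht k) Q y j
        + HahnSeries.C (i : k) * ∑ j, G j * y j) := by
    rw [Finset.mul_sum, ← Finset.sum_add_distrib, Finset.mul_sum]
    apply Finset.sum_congr rfl
    intro j _
    ring
  rw [h2, h]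
  ring

end gen

theorem x0 (hG : GtopStmt) (hS : SpgStmt) (hC : CguStmt) (hO : OpcStmt) : X0Stmt := by
  classical
  intro n M D q0 A K _ _ f U Ui Rv hd hL hMD hq hω hκ
  obtain ⟨⟨S, hSm⟩, hS2, hS3, hS4, hS5, hS6, hS7, hS8⟩ := hS (qG n M) K
  obtain ⟨hdt, hdt2, hc, hcrd, hRm⟩ := hC n M D true A K f hd
  have hD : IsDer (R := LL (qG n M) K) (thLt (qG n M) K) :=
    (hO (qG n M) K K (RingHom.id K) 1 one_pos).2.2.2.2.2.2.2.2.1
  have hM1 : 1 ≤ M := by have := hd.hM; omega
  obtain ⟨hω1, hω2⟩ := omg n M (LL (qG n M) K) hd.hM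
  have hunit : IsUnit (dt A (cgen D f)) := isUnit_iff_ne_zero.mpr hdt
  obtain ⟨hg1, hg2, hg3⟩ := hG n M A (LL (qG n M) K) (cgen D f) hd.hn hM1 hunit
  have hg0 := hg1 _ hω1 (hω2.levLe hd.hn)
  set cω := crd A (cgen D f) (Pool.Agent.Helper95_CM.omg n M (LL (qG n M) K)) with hcω
  set η := Ui.mulVec cω with hη
  -- `InG` of the coordinates
  have hInη : ∀ i, InG (η i) := by
    intro i
    rw [← hSm]
    apply Subfield.sum_mem
    intro j _
    apply Subfield.mul_mem
    · exact (hSm _).mpr (hL.gUi i j)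
    · apply (hSm _).mpr
      apply hcrd
      intro s
      have h1 : Pool.Agent.Helper95_CM.omg n M (LL (qG n M) K)
          = map (Int.castRingHom (LL (qG n M) K)) (Pool.Agent.Helper95_CM.omg n M ℤ) := by
        unfold Pool.Agent.Helper95_CM.omg
        simp
      rw [h1, coeff_map, ← hSm]
      exact intCast_mem S _
  have hcz : CharZero (OO (qG n M) K) := by
    refine ⟨fun a b hab => ?_⟩
    have h1 : ((a : OO (qG n M) K)).coeff 0 = ((b : OO (qG n M) K)).coeff 0 := by rw [hab]
    have h2 : ∀ a : ℕ, (a : OO (qG n M) K) = kO (qG n M) K (a : K) := by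
      intro a
      rw [map_natCast]
    rw [h2, h2] at hab
    have h3 := (kO (qG n M) K).injective hab
    exact_mod_cast h3
  refine ⟨als Rv q0 η, ?_, als_ord hL.pf hL.nil q0 η hω, ?_, ?_⟩
  · -- membership
    refine als_ind (fun y => ∀ i, InG (y i)) ?_ q0 η hInη
    intro i y hy j
    unfold stp
    rw [← hSm]
    have hCi : ∀ m : ℕ, (HahnSeries.C ((m : OO (qG n M) K)) : LL (qG n M) K) = (m : LL (qG n M) K) := by
      intro m
      rw [map_natCast]
    have hCinv : (HahnSeries.C (((i + 1 : ℕ) : OO (qG n M) K)⁻¹) : LL (qG n M) K)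
        = ((i + 1 : ℕ) : LL (qG n M) K)⁻¹ := by
      rw [map_inv₀, hCi]
    apply Subfield.mul_mem
    · rw [hCinv]
      exact Subfield.inv_mem _ (natCast_mem S _)
    · apply Subfield.add_mem
      · rw [nbv_apply]
        apply Subfield.add_mem
        · exact (hSm _).mpr (hS7 _ (hy j))
        · apply Subfield.sum_mem
          intro l _
          exact Subfield.mul_mem _ ((hSm _).mpr (hL.gR j l)) ((hSm _).mpr (hy l))
      · rw [hCi]
        exact Subfield.mul_mem _ (natCast_mem S _) ((hSm _).mpr (hy j))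
  · -- the top coordinate
    have hη0 : ∑ j, U (topI A) j * η j = 0 := by
      have h1 : ∑ j, U (topI A) j * η j = (U.mulVec (Ui.mulVec cω)) (topI A) := rfl
      rw [h1, Matrix.mulVec_mulVec, hL.gau.inv, Matrix.one_mulVec]
      exact hg0
    have hqD : q0 < D / M := by
      obtain ⟨e, he⟩ := hMD
      rw [he, Nat.mul_div_cancel_left e (by omega)]
      rw [he, mul_comm] at hq
      exact Nat.lt_of_mul_lt_mul_left hq
    have := als_ind (Q := Rv) (fun y => (∀ i, OrdGe (-(q0 : ℤ)) (y i)) ∧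
      OrdGe 1 (∑ j, U (topI A) j * y j)) ?_ q0 η ⟨hω, ?_⟩
    · exact this.2
    · rintro i y ⟨h1, h2⟩
      refine ⟨fun j => stp_ord hL.pf (i + 1) h1 j, ?_⟩
      rw [row_stp hD]
      apply C_mul_ord
      refine ((OrdGe.tht h2).add (C_mul_ord _ h2)).sub ?_
      apply OrdGe.sum
      intro j _
      have h3 := (hκ j).mul (h1 j)
      intro m hm
      apply h3
      omega
    · rw [hη0]
      exact OrdGe.zero' _
  · -- the constant coefficient
    intro G hGh hG0
    refine als_ind (Q := Rv) (fun y => (∑ j, G j * y j).coeff 0 = (∑ j, G j * η j).coeff 0)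
      ?_ q0 η rfl
    intro i y hy
    rw [row_stp hD]
    have h0 : ∑ j, (thLt (qG n M) K (G j) - ∑ i, G i * Rv i j) * y j = 0 := by
      apply Finset.sum_eq_zero
      intro j _
      rw [hGh j, sub_self, zero_mul]
    have h1 : ∑ j, (tht (OO (qG n M) K) (G j) - ∑ i, G i * Rv i j) * y j = 0 := h0
    rw [h1, sub_zero, coeff_C_mul', HahnSeries.coeff_add, coeff_C_mul', tht_coeff, hy]
    have h3 : ((i + 1 : ℕ) : OO (qG n M) K) ≠ 0 := Nat.cast_ne_zero.mpr (Nat.succ_ne_zero i)
    rw [Int.cast_zero, zero_mul, zero_add, ← mul_assoc, inv_mul_cancel₀ h3, one_mul]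

end Pool.Agent.Helper95_CM.H34
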